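import Pool.Agent.H54.RTFinalU

/-!
# Combinatorial core of the square-root bound

`K₅`-free graphs with small independence number, all codegrees of edges at most `X`.
-/

set_option maxHeartbeats 1000000

open Finset

namespace Pool.Agent.H50.RT2

open Pool.Agent.H54.RT

variable {V : Type*} [Fintype V] [DecidableEq V]

/-- number of neighbours of `x` inside `Y` -/
noncomputable def dg (G : SimpleGraph V) (Y : Finset V) (x : V) : ℕ := by
  classical exact #{y ∈ Y | G.Adj x y}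

lemma adjPairs_eq_sum (G : SimpleGraph V) (Y : Finset V) :
    adjPairs G Y = ∑ x ∈ Y, dg G Y x := by
  classical
  unfold adjPairs
  rw [card_filter, sum_product]
  apply sum_congr rfl
  intro x _
  simp only [dg, card_filter]

lemma adjPairs_eq_sum2 (G : SimpleGraph V) (Y : Finset V) :
    adjPairs G Y = ∑ x ∈ Y, ∑ y ∈ Y, (open scoped Classical in if G.Adj x y then 1 else 0) := by
  classical
  rw [adjPairs_eq_sum]
  apply sum_congr rfl
  intro x _
  simp only [dg, card_filter]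

lemma adjPairs_erase (G : SimpleGraph V) (Y : Finset V) (x : V) (hx : x ∈ Y) :
    adjPairs G Y = adjPairs G (Y.erase x) + 2 * dg G Y x := by
  classical
  rw [adjPairs_eq_sum2, adjPairs_eq_sum2]
  have h1 : ∀ f : V → ℕ, ∑ u ∈ Y, f u = f x + ∑ u ∈ Y.erase x, f u := fun f =>
    (add_sum_erase Y f hx).symm
  have hxx : (open scoped Classical in (if G.Adj x x then 1 else 0 : ℕ)) = 0 := by
    simp
  have hd : dg G Y x = ∑ v ∈ Y.erase x, (open scoped Classical in if G.Adj x v then 1 else 0) := by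
    have : dg G Y x = ∑ v ∈ Y, (open scoped Classical in if G.Adj x v then 1 else 0) := by
      simp only [dg, card_filter]
    rw [this, h1, hxx, zero_add]
  have hd2 : dg G Y x = ∑ u ∈ Y.erase x, (open scoped Classical in if G.Adj u x then 1 else 0) := by
    rw [hd]
    apply sum_congr rfl
    intro u _
    simp only [G.adj_comm x u]
  rw [h1]
  have h2 : ∑ u ∈ Y.erase x, ∑ v ∈ Y, (open scoped Classical in if G.Adj u v then 1 else 0)
      = ∑ u ∈ Y.erase x, ((open scoped Classical in if G.Adj u x then 1 else 0) +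
        ∑ v ∈ Y.erase x, (open scoped Classical in if G.Adj u v then 1 else 0)) := by
    apply sum_congr rfl
    intro u _
    rw [h1]
  rw [h2, sum_add_distrib, ← hd2, h1 (fun v => open scoped Classical in if G.Adj x v then 1 else 0),
    hxx, zero_add, ← hd]
  ring

lemma card_le_mul_deg (G : SimpleGraph V) (a : ℕ)
    (ha : ∀ s : Finset V, G.IsIndepSet (s : Set V) → #s ≤ a) (Y : Finset V) (Δ : ℕ)
    (hΔ : ∀ x ∈ Y, dg G Y x ≤ Δ) : #Y ≤ a * (Δ + 1) := by
  classical
  obtain ⟨I, hI, hmax⟩ : ∃ I ∈ (Y.powerset.filter fun s : Finset V => G.IsIndepSet (s : Set V)),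
      ∀ J ∈ (Y.powerset.filter fun s : Finset V => G.IsIndepSet (s : Set V)), #J ≤ #I := by
    apply Finset.exists_max_image
    exact ⟨∅, by simp [SimpleGraph.isIndepSet_iff]⟩
  rw [mem_filter, mem_powerset] at hI
  obtain ⟨hIU, hIind⟩ := hI
  have hnb : ∀ u ∈ Y, u ∉ I → ∃ w ∈ I, G.Adj w u := by
    intro u hu huI
    by_contra hcon
    push Not at hcon
    have : insert u I ∈ (Y.powerset.filter fun s : Finset V => G.IsIndepSet (s : Set V)) := by
      rw [mem_filter, mem_powerset]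
      refine ⟨insert_subset hu hIU, ?_⟩
      rw [SimpleGraph.isIndepSet_iff]
      intro x hx y hy hxy
      simp only [coe_insert, Set.mem_insert_iff, mem_coe] at hx hy
      rcases hx with rfl | hx
      · rcases hy with rfl | hy
        · exact absurd rfl hxy
        · intro h; exact hcon y hy h.symm
      · rcases hy with rfl | hy
        · exact hcon x hx
        · exact hIind hx hy hxy
    have h2 := hmax _ this
    rw [card_insert_of_notMem huI] at h2
    omega
  have hsub : Y ⊆ I.biUnion fun w => insert w {y ∈ Y | G.Adj w y} := by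
    intro u hu
    rw [mem_biUnion]
    by_cases huI : u ∈ I
    · exact ⟨u, huI, mem_insert_self _ _⟩
    · obtain ⟨w, hw, hadj⟩ := hnb u hu huI
      exact ⟨w, hw, mem_insert_of_mem (mem_filter.2 ⟨hu, hadj⟩)⟩
  calc #Y ≤ #(I.biUnion fun w => insert w {y ∈ Y | G.Adj w y}) := card_le_card hsub
    _ ≤ #I * (Δ + 1) := by
        apply card_biUnion_le_card_mul
        intro w hw
        refine (card_insert_le _ _).trans ?_
        have h := hΔ w (hIU hw)
        have : dg G Y w = #{y ∈ Y | G.Adj w y} := by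
          simp only [dg]
        omega
    _ ≤ a * (Δ + 1) := Nat.mul_le_mul_right _ (ha I hIind)

/-- Turán-type bound -/
lemma turan_sq (G : SimpleGraph V) (a : ℕ)
    (ha : ∀ s : Finset V, G.IsIndepSet (s : Set V) → #s ≤ a) : ∀ Y : Finset V,
    (#Y) ^ 2 ≤ a * adjPairs G Y + 2 * a * #Y := by
  classical
  intro Y
  induction Y using Finset.strongInduction with
  | H Y ih =>
    rcases Y.eq_empty_or_nonempty with rfl | hne
    · simp
    · obtain ⟨x, hx, hmax⟩ := exists_max_image Y (dg G Y) hne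
      have h1 := card_le_mul_deg G a ha Y (dg G Y x) hmax
      have h2 := ih (Y.erase x) (erase_ssubset hx)
      have h3 := adjPairs_erase G Y x hx
      have h4 : #(Y.erase x) + 1 = #Y := card_erase_add_one hx
      rw [h3]
      rw [← h4] at h1 ⊢
      nlinarith

/-- Choice of a vertex with many neighbours of large codegree. -/
lemma pick (G : SimpleGraph V) (a : ℕ)
    (ha : ∀ s : Finset V, G.IsIndepSet (s : Set V) → #s ≤ a) (S W : Finset V) (N : V → Finset V)
    (D X b t : ℕ) (hNS : ∀ x ∈ W, N x ⊆ S) (hND : ∀ x ∈ W, #(N x) = D)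
    (hX : ∀ x ∈ W, ∀ y ∈ W, G.Adj x y → #(N x ∩ N y) ≤ X)
    (h1 : 2 * a * (#S) ^ t ≤ #W * D ^ t) (h2 : 4 * (Fintype.card V) * b ^ t ≤ D ^ t)
    (hW : W.Nonempty) :
    ∃ x ∈ W, ∃ Z ⊆ W, (∀ y ∈ Z, G.Adj x y ∧ b ≤ #(N x ∩ N y)) ∧ D ^ t ≤ 4 * #Z * X ^ t := by
  classical
  by_contra hcon
  push Not at hcon
  -- counting
  let P : Finset V → Finset (Fin t → V) := fun S => Fintype.piFinset fun _ : Fin t => S
  have hP : ∀ S : Finset V, #(P S) = (#S) ^ t := by
    intro S
    simp only [P, Fintype.card_piFinset]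
    simp
  let U : (Fin t → V) → Finset V := fun T => {x ∈ W | T ∈ P (N x)}
  have hcount : ∑ T ∈ P S, #(U T) = #W * D ^ t := by
    have : ∀ T, #(U T) = ∑ x ∈ W, if T ∈ P (N x) then 1 else 0 := by
      intro T
      simp only [U, card_filter]
    simp_rw [this]
    rw [sum_comm]
    have h : ∀ x ∈ W, (∑ T ∈ P S, if T ∈ P (N x) then 1 else 0) = D ^ t := by
      intro x hx
      rw [← card_filter]
      have : (P S).filter (fun T => T ∈ P (N x)) = P (N x) := by
        ext T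
        simp only [mem_filter, P, Fintype.mem_piFinset]
        constructor
        · exact fun h => h.2
        · exact fun h => ⟨fun i => hNS x hx (h i), h⟩
      rw [this, hP, hND x hx]
    rw [sum_congr rfl h]
    simp
  let E : Finset (V × V) := (W ×ˢ W).filter fun p => G.Adj p.1 p.2
  have hpairs : ∑ T ∈ P S, adjPairs G (U T) = ∑ p ∈ E, (#(N p.1 ∩ N p.2)) ^ t := by
    have : ∀ T, adjPairs G (U T) = ∑ p ∈ E, if T ∈ P (N p.1 ∩ N p.2) then 1 else 0 := by
      intro T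
      unfold adjPairs
      rw [← card_filter]
      congr 1
      ext p
      simp only [U, E, P, mem_filter, mem_product, Fintype.mem_piFinset, mem_inter]
      constructor
      · rintro ⟨⟨⟨h1, h2⟩, h3, h4⟩, h5⟩
        exact ⟨⟨⟨h1, h3⟩, h5⟩, fun i => ⟨h2 i, h4 i⟩⟩
      · rintro ⟨⟨⟨h1, h3⟩, h5⟩, h6⟩
        exact ⟨⟨⟨h1, fun i => (h6 i).1⟩, h3, fun i => (h6 i).2⟩, h5⟩
    simp_rw [this]
    rw [sum_comm]
    apply sum_congr rfl
    intro p hp
    rw [← card_filter, ← hP]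
    congr 1
    ext T
    simp only [mem_filter, P, Fintype.mem_piFinset, mem_inter]
    constructor
    · exact fun h => h.2
    · intro h
      have hp' : p.1 ∈ W := by
        simp only [E, mem_filter, mem_product] at hp
        exact hp.1.1
      exact ⟨fun i => hNS p.1 hp' (h i).1, h⟩
  have hmain : #W * D ^ t ≤ a * (#S) ^ t + ∑ p ∈ E, (#(N p.1 ∩ N p.2)) ^ t := by
    rw [← hcount, ← hpairs, ← hP S]
    calc ∑ T ∈ P S, #(U T) ≤ ∑ T ∈ P S, (a + adjPairs G (U T)) :=
          sum_le_sum fun T _ => card_le_add_adjPairs G a ha (U T)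
      _ = a * #(P S) + ∑ T ∈ P S, adjPairs G (U T) := by
          rw [sum_add_distrib, sum_const, smul_eq_mul, mul_comm]
  have hE : ∑ p ∈ E, (#(N p.1 ∩ N p.2)) ^ t
      = ∑ x ∈ W, ∑ y ∈ W, if G.Adj x y then (#(N x ∩ N y)) ^ t else 0 := by
    rw [sum_filter, sum_product]
  have hx : ∀ x ∈ W, 2 * (∑ y ∈ W, if G.Adj x y then (#(N x ∩ N y)) ^ t else 0) < D ^ t := by
    intro x hx
    have h3 := hcon x hx {y ∈ W | G.Adj x y ∧ b ≤ #(N x ∩ N y)} (filter_subset _ _)
      (fun y hy => (mem_filter.1 hy).2)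
    have h4 : (∑ y ∈ W, if G.Adj x y then (#(N x ∩ N y)) ^ t else 0) ≤
        ∑ y ∈ W, ((if (G.Adj x y ∧ b ≤ #(N x ∩ N y)) then X ^ t else 0) + b ^ t) := by
      apply sum_le_sum
      intro y hy
      by_cases hadj : G.Adj x y
      · by_cases hb : b ≤ #(N x ∩ N y)
        · rw [if_pos hadj, if_pos ⟨hadj, hb⟩]
          have := Nat.pow_le_pow_left (hX x hx y hy hadj) t
          omega
        · rw [if_pos hadj, if_neg (fun h => hb h.2)]
          push Not at hb
          have := Nat.pow_le_pow_left hb.le t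
          omega
      · rw [if_neg hadj, if_neg (fun h => hadj h.1)]
        exact Nat.zero_le _
    have h4' : ∑ y ∈ W, ((if (G.Adj x y ∧ b ≤ #(N x ∩ N y)) then X ^ t else 0) + b ^ t)
        = #{y ∈ W | G.Adj x y ∧ b ≤ #(N x ∩ N y)} * X ^ t + #W * b ^ t := by
      rw [sum_add_distrib, ← sum_filter, sum_const, sum_const, smul_eq_mul, smul_eq_mul]
    rw [h4'] at h4
    have h5 : #W * b ^ t ≤ Fintype.card V * b ^ t := Nat.mul_le_mul_right _ (card_le_univ W)
    have h6 : 4 * (#{y ∈ W | G.Adj x y ∧ b ≤ #(N x ∩ N y)} * X ^ t) < D ^ t := by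
      calc 4 * (#{y ∈ W | G.Adj x y ∧ b ≤ #(N x ∩ N y)} * X ^ t)
          = 4 * #{y ∈ W | G.Adj x y ∧ b ≤ #(N x ∩ N y)} * X ^ t := by ring
        _ < D ^ t := h3
    have h7 : 4 * (Fintype.card V * b ^ t) ≤ D ^ t := by
      calc 4 * (Fintype.card V * b ^ t) = 4 * (Fintype.card V) * b ^ t := by ring
        _ ≤ D ^ t := h2
    omega
  have hsum : ∑ x ∈ W, 2 * (∑ y ∈ W, if G.Adj x y then (#(N x ∩ N y)) ^ t else 0) < ∑ x ∈ W, D ^ t :=
    sum_lt_sum_of_nonempty hW hx
  rw [← mul_sum, ← hE, sum_const, smul_eq_mul] at hsum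
  have h8 : 2 * (a * (#S) ^ t) ≤ #W * D ^ t := by
    calc 2 * (a * (#S) ^ t) = 2 * a * (#S) ^ t := by ring
      _ ≤ _ := h1
  omega

/-- The set of neighbours with large codegree is dense. -/
lemma dense (G : SimpleGraph V) (hG : G.CliqueFree 5) (a : ℕ)
    (ha : ∀ s : Finset V, G.IsIndepSet (s : Set V) → #s ≤ a) (N : V → Finset V) (x : V)
    (Z : Finset V) (D X b : ℕ) (hD : #(N x) = D) (hNx : ∀ v ∈ N x, G.Adj x v)
    (hNZ : ∀ y ∈ Z, ∀ v ∈ N y, G.Adj y v) (hxZ : ∀ y ∈ Z, G.Adj x y)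
    (hb : ∀ y ∈ Z, b ≤ #(N x ∩ N y)) (hX : ∀ y ∈ Z, #(N x ∩ N y) ≤ X) :
    (b * #Z) ^ 2 ≤ D * (a ^ 2 * adjPairs G Z + 2 * a * (X * #Z)) := by
  classical
  let Y : V → Finset V := fun v => {y ∈ Z | v ∈ N y}
  set σ := ∑ v ∈ N x, #(Y v) with hσ
  have hσ1 : σ = ∑ y ∈ Z, #(N x ∩ N y) := by
    rw [hσ]
    simp only [Y, card_filter]
    rw [sum_comm]
    apply sum_congr rfl
    intro y _
    rw [← card_filter]
    congr 1
  have hσ2 : b * #Z ≤ σ := by
    rw [hσ1]
    calc b * #Z = ∑ y ∈ Z, b := by simp [mul_comm]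
      _ ≤ _ := sum_le_sum hb
  have hσ3 : σ ≤ X * #Z := by
    rw [hσ1]
    calc ∑ y ∈ Z, #(N x ∩ N y) ≤ ∑ y ∈ Z, X := sum_le_sum hX
      _ = X * #Z := by simp [mul_comm]
  have hcs : σ ^ 2 ≤ D * ∑ v ∈ N x, (#(Y v)) ^ 2 := by
    have := sq_sum_le_card_mul_sum_sq (s := N x) (f := fun v => #(Y v))
    rw [hD] at this
    exact this
  have hT : ∑ v ∈ N x, (#(Y v)) ^ 2 ≤ a * (∑ v ∈ N x, adjPairs G (Y v)) + 2 * a * σ := by
    calc ∑ v ∈ N x, (#(Y v)) ^ 2 ≤ ∑ v ∈ N x, (a * adjPairs G (Y v) + 2 * a * #(Y v)) :=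
          sum_le_sum fun v _ => turan_sq G a ha (Y v)
      _ = a * (∑ v ∈ N x, adjPairs G (Y v)) + 2 * a * σ := by
          rw [sum_add_distrib, ← mul_sum, ← mul_sum]
  have hP : ∑ v ∈ N x, adjPairs G (Y v) ≤ a * adjPairs G Z := by
    have h1 : ∀ v, adjPairs G (Y v) = ∑ p ∈ (Z ×ˢ Z).filter (fun p => G.Adj p.1 p.2),
        if (v ∈ N p.1 ∧ v ∈ N p.2) then 1 else 0 := by
      intro v
      unfold adjPairs
      rw [← card_filter]
      congr 1
      ext p
      simp only [Y, mem_filter, mem_product]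
      constructor
      · rintro ⟨⟨⟨h1, h2⟩, h3, h4⟩, h5⟩
        exact ⟨⟨⟨h1, h3⟩, h5⟩, h2, h4⟩
      · rintro ⟨⟨⟨h1, h3⟩, h5⟩, h2, h4⟩
        exact ⟨⟨⟨h1, h2⟩, h3, h4⟩, h5⟩
    simp_rw [h1]
    rw [sum_comm]
    have h2 : ∀ p ∈ (Z ×ˢ Z).filter (fun p => G.Adj p.1 p.2),
        (∑ v ∈ N x, if (v ∈ N p.1 ∧ v ∈ N p.2) then 1 else 0) ≤ a := by
      intro p hp
      rw [mem_filter, mem_product] at hp
      rw [← card_filter]
      apply ha
      rw [SimpleGraph.isIndepSet_iff]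
      intro v hv w hw _ hvw
      rw [mem_coe, mem_filter] at hv hw
      exact five_clique G hG x p.1 p.2 v w (hxZ _ hp.1.1) (hxZ _ hp.1.2) (hNx v hv.1) (hNx w hw.1)
        hp.2 (hNZ _ hp.1.1 v hv.2.1) (hNZ _ hp.1.1 w hw.2.1) (hNZ _ hp.1.2 v hv.2.2)
        (hNZ _ hp.1.2 w hw.2.2) hvw
    calc ∑ p ∈ (Z ×ˢ Z).filter (fun p => G.Adj p.1 p.2),
          (∑ v ∈ N x, if (v ∈ N p.1 ∧ v ∈ N p.2) then 1 else 0)
        ≤ ∑ p ∈ (Z ×ˢ Z).filter (fun p => G.Adj p.1 p.2), a := sum_le_sum h2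
      _ = a * adjPairs G Z := by
          rw [sum_const, smul_eq_mul, mul_comm]
          congr 1
  calc (b * #Z) ^ 2 ≤ σ ^ 2 := Nat.pow_le_pow_left hσ2 2
    _ ≤ D * ∑ v ∈ N x, (#(Y v)) ^ 2 := hcs
    _ ≤ D * (a * (a * adjPairs G Z) + 2 * a * (X * #Z)) := by
        apply Nat.mul_le_mul_left
        refine hT.trans ?_
        apply Nat.add_le_add
        · exact Nat.mul_le_mul_left _ hP
        · exact Nat.mul_le_mul_left _ hσ3
    _ = D * (a ^ 2 * adjPairs G Z + 2 * a * (X * #Z)) := by ring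

/-- dependent random choice inside a `K₄`-free set -/
lemma drcZ (G : SimpleGraph V) (a : ℕ)
    (ha : ∀ s : Finset V, G.IsIndepSet (s : Set V) → #s ≤ a) (Z : Finset V)
    (hZ : ∀ x ∈ Z, ∀ y ∈ Z, ∀ z ∈ Z, ∀ w ∈ Z, G.Adj x y → G.Adj x z → G.Adj x w →
      G.Adj y z → G.Adj y w → ¬ G.Adj z w) (t : ℕ) :
    (adjPairs G Z) ^ (t + 1) ≤ (#Z) ^ t * ((#Z) ^ (t + 1) * a + (#Z) ^ 2 * a ^ (t + 1)) := by
  classical
  let G' : SimpleGraph Z := G.comap (Function.Embedding.subtype (· ∈ Z))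
  have h1 : adjPairs G' (univ : Finset Z) = adjPairs G Z := by
    rw [adjPairs_eq_sum2, adjPairs_eq_sum2]
    rw [← sum_coe_sort Z (fun x => ∑ y ∈ Z, (if G.Adj x y then 1 else 0 : ℕ))]
    apply sum_congr rfl
    intro x _
    rw [← sum_coe_sort Z (fun y => (if G.Adj x y then 1 else 0 : ℕ))]
    apply sum_congr rfl
    intro y _
    rfl
  have h2 : Fintype.card Z = #Z := Fintype.card_coe Z
  have h3 := drc G' a (by
    intro s hs
    have h2 := ha (s.map (Function.Embedding.subtype (· ∈ Z)))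
    rw [card_map] at h2
    apply h2
    rw [coe_map]
    rintro _ ⟨x, hx, rfl⟩ _ ⟨y, hy, rfl⟩ hxy
    exact hs hx hy (fun h => hxy (by rw [h]))) univ (by
    intro x _ y _ z _ w _ hxy hxz hxw hyz hyw hzw
    exact hZ x x.2 y y.2 z z.2 w w.2 hxy hxz hxw hyz hyw hzw) t
  rw [h1, h2] at h3
  exact h3

end Pool.Agent.H50.RT2
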