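import Pool.Agent.H50.RT2.Root
import Pool.Agent.H54.RTSmall2
import Pool.Agent.H54.RTSandwich

/-!
# The square-root bound for the densities
-/

set_option maxHeartbeats 1000000

open Finset Filter Topology

namespace Pool.Agent.H50.RT2

open Pool.Agent.H54.RT

lemma RT_upper2 (c ε : ℝ) (hc : c ≤ 1) (hε : 0 < ε) : ∀ᶠ n : ℕ in atTop, ∀ k : ℕ,
    c * Q 3 (n / 2) ≤ Q 3 (k + 1) →
      (RTnum n 5 (fc c n) : ℝ) ≤ Real.sqrt (k * (n : ℝ) ^ 3 / 8) + ε * (n : ℝ) ^ 2 := by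
  obtain ⟨δ, hδ0, h⟩ := root_core ε hε
  filter_upwards [h, Q_le_rpow (1 / 2 + δ) (by linarith)] with n h1 h2 k hk
  apply RT_le (by positivity)
  intro G hG hα
  have hmono : (Q 3 (n / 2) : ℝ) ≤ Q 3 n := by exact_mod_cast Q_mono (Nat.div_le_self n 2)
  unfold fc at hα
  have h3 := h1 G hG G.indepNum ((indepNum_le_iff G _).1 le_rfl) (by
    have : c * (Q 3 (n / 2) : ℝ) ≤ 1 * Q 3 (n / 2) := by gcongr
    linarith) (min k n) (by exact_mod_cast min_le_right k n) (by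
    intro x y hxy s hs
    apply le_min
    · have := codeg_lt G hG (k + 1) (by linarith) x y hxy s hs
      have h4 : #s < k + 1 := by exact_mod_cast this
      omega
    · have := card_le_univ s
      rwa [Fintype.card_fin] at this)
  refine h3.trans ?_
  have h5 : ((min k n : ℕ) : ℝ) ≤ k := by exact_mod_cast min_le_left k n
  gcongr

/-- **Square-root bound in terms of `Q(3,·)`.** -/
theorem upper_sqrt (c : ℝ) (hc0 : 0 < c) (hc : c ≤ 1) (ε : ℝ) (hε : 0 < ε) :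
    ∀ᶠ n : ℕ in atTop, (RTnum n 5 (fc c n) : ℝ) ≤
      Real.sqrt (kc c n * (n : ℝ) ^ 3 / 8) + ε * (n : ℝ) ^ 2 := by
  filter_upwards [RT_upper2 c ε hc hε, eventually_ge_atTop 2] with n h1 h2
  exact h1 (kc c n) (kc_spec c hc0 hc n h2).2

lemma sqrt_aux (x : ℝ) (hx : 0 ≤ x) (n : ℕ) (k : ℕ) (hk : (k : ℝ) ≤ x * n + 1) :
    Real.sqrt (k * (n : ℝ) ^ 3 / 8) ≤ Real.sqrt (x / 8) * (n : ℝ) ^ 2 + Real.sqrt ((n : ℝ) ^ 3) := by
  have hn0 : (0 : ℝ) ≤ n := Nat.cast_nonneg n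
  have h0 : 0 ≤ Real.sqrt (x / 8) * (n : ℝ) ^ 2 := by positivity
  have h1 : 0 ≤ Real.sqrt ((n : ℝ) ^ 3) := Real.sqrt_nonneg _
  have h2 : Real.sqrt (x / 8) ^ 2 = x / 8 := Real.sq_sqrt (by positivity)
  have h3 : Real.sqrt ((n : ℝ) ^ 3) ^ 2 = (n : ℝ) ^ 3 := Real.sq_sqrt (by positivity)
  apply Real.sqrt_le_iff.2
  refine ⟨by positivity, ?_⟩
  have h4 : (k : ℝ) * (n : ℝ) ^ 3 / 8 ≤ (x * n + 1) * (n : ℝ) ^ 3 / 8 := by gcongr
  have h5 : (Real.sqrt (x / 8) * (n : ℝ) ^ 2 + Real.sqrt ((n : ℝ) ^ 3)) ^ 2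
      = x / 8 * (n : ℝ) ^ 4 + (n : ℝ) ^ 3 +
        2 * (Real.sqrt (x / 8) * (n : ℝ) ^ 2 * Real.sqrt ((n : ℝ) ^ 3)) := by
    rw [add_sq, mul_pow, h2, h3]
    ring
  rw [h5]
  have h6 : 0 ≤ Real.sqrt (x / 8) * (n : ℝ) ^ 2 * Real.sqrt ((n : ℝ) ^ 3) := by positivity
  have h7 : 0 ≤ (n : ℝ) ^ 3 := by positivity
  nlinarith

lemma sqrt_small (ε : ℝ) (hε : 0 < ε) :
    ∀ᶠ n : ℕ in atTop, Real.sqrt ((n : ℝ) ^ 3) ≤ ε * (n : ℝ) ^ 2 := by
  filter_upwards [(tendsto_natCast_atTop_atTop (R := ℝ)).eventually_ge_atTop (1 / ε ^ 2)] with n h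
  apply Real.sqrt_le_iff.2
  refine ⟨by positivity, ?_⟩
  rw [div_le_iff₀ (by positivity)] at h
  have h0 : (0 : ℝ) ≤ (n : ℝ) ^ 3 := by positivity
  calc (n : ℝ) ^ 3 = 1 * (n : ℝ) ^ 3 := by ring
    _ ≤ (n * ε ^ 2) * (n : ℝ) ^ 3 := by gcongr
    _ = (ε * (n : ℝ) ^ 2) ^ 2 := by ring

/-- general form: if `k ≤ x n + 1` works for all large `n` -/
lemma upper_of2 (c x : ℝ) (hc : c ≤ 1) (hx : 0 ≤ x)
    (h : ∀ᶠ n : ℕ in atTop, ∃ k : ℕ, c * Q 3 (n / 2) ≤ Q 3 (k + 1) ∧ (k : ℝ) ≤ x * n + 1) :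
    upperDensity 5 (fc c) ≤ Real.sqrt (x / 8) := by
  apply upperDensity_le
  intro ε hε
  filter_upwards [RT_upper2 c (ε / 2) hc (by positivity), h, sqrt_small (ε / 2) (by positivity)]
    with n h1 ⟨k, h2, h3⟩ h4
  have h5 := h1 k h2
  have h6 := sqrt_aux x hx n k h3
  linarith

lemma lower_of2 (c x : ℝ) (hc : c ≤ 1) (hx : 0 ≤ x)
    (h : ∃ᶠ n : ℕ in atTop, ∃ k : ℕ, c * Q 3 (n / 2) ≤ Q 3 (k + 1) ∧ (k : ℝ) ≤ x * n + 1) :
    lowerDensity 5 (fc c) ≤ Real.sqrt (x / 8) := by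
  apply lowerDensity_le
  intro ε hε
  refine (h.and_eventually ((RT_upper2 c (ε / 2) hc (by positivity)).and
    (sqrt_small (ε / 2) (by positivity)))).mono ?_
  rintro n ⟨⟨k, h2, h3⟩, h1, h4⟩
  have h5 := h1 k h2
  have h6 := sqrt_aux x hx n k h3
  linarith

/-- upper density for `c ≤ 1/m` -/
theorem upper_inv2 (c : ℝ) (m : ℕ) (hm : 1 ≤ m) (hc : c ≤ 1 / m) :
    upperDensity 5 (fc c) ≤ 1 / (4 * Real.sqrt m) := by
  have hm0 : (0 : ℝ) < m := by exact_mod_cast hm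
  have hm1 : (1 : ℝ) ≤ m := by exact_mod_cast hm
  have hc1 : c ≤ 1 := by
    refine le_trans hc ?_
    rw [div_le_one hm0]
    exact hm1
  have := upper_of2 c (1 / (2 * m)) hc1 (by positivity) (by
    filter_upwards with n
    refine ⟨(n / 2 + m - 1) / m, ?_, ?_⟩
    · have h1 : n / 2 ≤ m * ((n / 2 + m - 1) / m) := by
        have := Nat.lt_mul_div_succ (n / 2 + m - 1) hm
        rw [Nat.mul_add, Nat.mul_one] at this
        omega
      have h2 := (Q_mono h1).trans (Q_mul m _)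
      have h3 : (Q 3 (n / 2) : ℝ) ≤ m * Q 3 ((n / 2 + m - 1) / m) := by exact_mod_cast h2
      have h4 : (Q 3 ((n / 2 + m - 1) / m) : ℝ) ≤ Q 3 ((n / 2 + m - 1) / m + 1) := by
        exact_mod_cast Q_mono (Nat.le_succ _)
      calc c * (Q 3 (n / 2) : ℝ) ≤ 1 / m * (m * Q 3 ((n / 2 + m - 1) / m)) := by gcongr
        _ = Q 3 ((n / 2 + m - 1) / m) := by field_simp
        _ ≤ _ := h4
    · have h1 : (((n / 2 + m - 1) / m : ℕ) : ℝ) ≤ ((n / 2 + m - 1 : ℕ) : ℝ) / m := Nat.cast_div_le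
      have h2 : ((n / 2 + m - 1 : ℕ) : ℝ) ≤ n / 2 + m := by
        have h3 : ((n / 2 : ℕ) : ℝ) ≤ n / 2 := Nat.cast_div_le
        have h4 : ((n / 2 + m - 1 : ℕ) : ℝ) ≤ ((n / 2 + m : ℕ) : ℝ) := by
          exact_mod_cast Nat.sub_le _ _
        push_cast at h4
        linarith
      calc (((n / 2 + m - 1) / m : ℕ) : ℝ) ≤ ((n / 2 + m - 1 : ℕ) : ℝ) / m := h1
        _ ≤ (n / 2 + m) / m := by gcongr
        _ = 1 / (2 * m) * n + 1 := by field_simp)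
  refine this.trans (le_of_eq ?_)
  have h1 : (1 : ℝ) / (2 * m) / 8 = (1 / (4 * Real.sqrt m)) ^ 2 := by
    rw [div_pow, mul_pow, Real.sq_sqrt hm0.le]
    field_simp
    norm_num
  rw [h1, Real.sqrt_sq (by positivity)]

/-- lower density -/
theorem lower_le2 (c : ℝ) (hc0 : 0 < c) (hc1 : c < 1) : lowerDensity 5 (fc c) ≤ c / 4 := by
  have key : ∀ l : ℝ, c ^ 2 < l → l < 1 → lowerDensity 5 (fc c) ≤ Real.sqrt (l / 2 / 8) := by
    intro l h1 h2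
    apply lower_of2 c (l / 2) hc1.le (by nlinarith [sq_nonneg c])
    have h5 : ∃ᶠ N : ℕ in atTop, (fun n : ℕ => ∃ k : ℕ, c * Q 3 (n / 2) ≤ Q 3 (k + 1) ∧
        (k : ℝ) ≤ l / 2 * n + 1) (2 * N) := by
      refine (growthA c l hc0 h1 h2).mono ?_
      intro N hN
      refine ⟨⌈l * (N : ℝ)⌉₊, ?_, ?_⟩
      · rw [Nat.mul_div_cancel_left N (by norm_num)]
        refine hN.trans ?_
        exact_mod_cast Q_mono (Nat.le_succ _)
      · have : (0 : ℝ) ≤ l * N := by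
          have : 0 < l := lt_trans (by positivity) h1
          positivity
        have := Nat.ceil_lt_add_one this
        push_cast
        linarith
    exact tendsto_two_mul.frequently h5
  have hc2 : c ^ 2 < 1 := by nlinarith
  have hlim : Tendsto (fun l : ℝ => Real.sqrt (l / 2 / 8)) (𝓝[>] (c ^ 2))
      (𝓝 (Real.sqrt (c ^ 2 / 2 / 8))) := by
    have : Continuous fun l : ℝ => Real.sqrt (l / 2 / 8) := by fun_prop
    exact (this.tendsto _).mono_left nhdsWithin_le_nhds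
  have h1 : lowerDensity 5 (fc c) ≤ Real.sqrt (c ^ 2 / 2 / 8) := by
    apply ge_of_tendsto hlim
    have : Set.Ioo (c ^ 2) 1 ∈ 𝓝[>] (c ^ 2) := Ioo_mem_nhdsGT hc2
    filter_upwards [this] with l hl
    exact key l hl.1 hl.2
  have h2 : Real.sqrt (c ^ 2 / 2 / 8) = c / 4 := by
    have : c ^ 2 / 2 / 8 = (c / 4) ^ 2 := by ring
    rw [this, Real.sqrt_sq (by positivity)]
  rwa [h2] at h1

/-- linear bound for small constants -/
theorem upper_lin : ∃ K : ℝ, 0 < K ∧ ∀ c : ℝ, 0 < c → c < 1 →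
    upperDensity 5 (fc c) ≤ K * c := by
  obtain ⟨C, hC, hup⟩ := Q_upper
  refine ⟨Real.sqrt (5 * C), Real.sqrt_pos.2 (by positivity), ?_⟩
  intro c hc0 hc1
  have h := upper_of2 c (40 * C * c ^ 2) hc1.le (by positivity) (by
    filter_upwards [Q_floor C c hC hup hc0] with n hn
    refine ⟨⌊40 * C * c ^ 2 * (n : ℝ)⌋₊, ?_, ?_⟩
    · refine hn.trans ?_
      exact_mod_cast Q_mono (Nat.le_succ _)
    · have : ((⌊40 * C * c ^ 2 * (n : ℝ)⌋₊ : ℕ) : ℝ) ≤ 40 * C * c ^ 2 * (n : ℝ) :=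
        Nat.floor_le (by positivity)
      linarith)
  refine h.trans (le_of_eq ?_)
  have h1 : 40 * C * c ^ 2 / 8 = (5 * C) * c ^ 2 := by ring
  rw [h1, Real.sqrt_mul (by positivity), Real.sqrt_sq hc0.le]

end Pool.Agent.H50.RT2
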