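import Pool.Agent.H50.RT2.Final

/-!
# Lower bounds: many small blocks
-/

set_option maxHeartbeats 1000000

open Finset Filter Topology

namespace Pool.Agent.H50.RT2

open Pool.Agent.H54.RT

theorem lower_two (c : ℝ) (hc : c ≤ 1) (ε : ℝ) (hε : 0 < ε) :
    ∀ᶠ n : ℕ in atTop, ∀ k : ℕ, (Q 3 k : ℝ) < c / 2 * Q 3 (n / 2) →
      (k : ℝ) * (n / 2 - k) - ε * (n : ℝ) ^ 2 ≤ RTnum n 5 (fc c n) := by
  obtain ⟨M₀, hM₀⟩ : ∃ M₀ : ℕ, 1 / ε ≤ M₀ := ⟨⌈1 / ε⌉₊, Nat.le_ceil _⟩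
  have hfam : ∀ᶠ n : ℕ in atTop, ∀ M ∈ Finset.Icc 1 M₀, ∀ s : ℕ, 0 < s → 2 * M * s ≤ n →
    ∃ G : SimpleGraph (Fin n), G.CliqueFree 5 ∧
      ((G.indepNum : ℝ) ≤ 2 * Q 3 s + (2 * M + 5) * (n : ℝ) ^ (48 / 100 : ℝ)) ∧
      (M = 1 → (G.indepNum : ℝ) ≤ Q 3 s + 7 * (n : ℝ) ^ (48 / 100 : ℝ)) ∧
      (M * s * s : ℝ) ≤ G.edgeSet.ncard + n * (n : ℝ) ^ (45 / 100 : ℝ) :=
    (Filter.eventually_all_finset _).2 fun M hM => lower_graph M (Finset.mem_Icc.1 hM).1
  filter_upwards [hfam, eventually_ge_atTop 2,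
    rpow_small (45 / 100) (by norm_num) (ε / 2) (by positivity),
    rpow_small (99 / 100) (by norm_num) (ε / (8 * 2 * (2 * M₀ + 7))) (by positivity),
    Q_le_rpow (51 / 100) (by norm_num)] with n h4 h3 h5 h6 h7 k hk
  have hn0 : (0 : ℝ) < n := by
    have : 0 < n := by omega
    exact_mod_cast this
  have hn1 : (1 : ℝ) ≤ n := by
    have : 1 ≤ n := by omega
    exact_mod_cast this
  have hkn : k < n / 2 := kc_bdd (c / 2) (by linarith) n k hk
  have hk0 : (0 : ℝ) ≤ k := Nat.cast_nonneg _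
  have hkn' : (k : ℝ) ≤ n / 2 := by
    have h1 : (k : ℝ) ≤ ((n / 2 : ℕ) : ℝ) := by exact_mod_cast hkn.le
    exact h1.trans Nat.cast_div_le
  have hRT0 : (0 : ℝ) ≤ RTnum n 5 (fc c n) := Nat.cast_nonneg _
  rcases le_or_gt (k : ℝ) (2 * ε * n) with hsmall | hlarge
  · have h1 : (k : ℝ) * (n / 2 - k) ≤ (2 * ε * n) * (n / 2) := by
      apply mul_le_mul hsmall (by linarith) (by linarith) (by positivity)
    nlinarith
  · set b : ℝ := (n : ℝ) ^ (48 / 100 : ℝ) with hb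
    have hb1 : 1 ≤ b := Real.one_le_rpow hn1 (by norm_num)
    obtain ⟨j, hj1, hj2⟩ : ∃ j : ℕ, (2 * M₀ + 6) * b ≤ j ∧ (j : ℝ) ≤ (2 * M₀ + 7) * b := by
      refine ⟨⌈(2 * M₀ + 6) * b⌉₊, Nat.le_ceil _, ?_⟩
      have : ((⌈(2 * M₀ + 6) * b⌉₊ : ℕ) : ℝ) < (2 * M₀ + 6) * b + 1 :=
        Nat.ceil_lt_add_one (by positivity)
      linarith
    have hQk : (Q 3 k : ℝ) ≤ (n : ℝ) ^ (51 / 100 : ℝ) := by
      refine le_trans ?_ h7
      exact_mod_cast Q_mono (show k ≤ n by omega)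
    have h51 : 1 ≤ (n : ℝ) ^ (51 / 100 : ℝ) := Real.one_le_rpow hn1 (by norm_num)
    have hrem : ((j * (1 + Q 3 k) : ℕ) : ℝ) ≤ ε / 8 * n := by
      push_cast
      calc (j : ℝ) * (1 + Q 3 k) ≤ ((2 * M₀ + 7) * b) *
            ((n : ℝ) ^ (51 / 100 : ℝ) + (n : ℝ) ^ (51 / 100 : ℝ)) := by
            gcongr
        _ = 2 * (2 * M₀ + 7) * ((n : ℝ) ^ (48 / 100 : ℝ) * (n : ℝ) ^ (51 / 100 : ℝ)) := by
            rw [hb]; ring
        _ = 2 * (2 * M₀ + 7) * (n : ℝ) ^ (99 / 100 : ℝ) := by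
            rw [← Real.rpow_add hn0]
            norm_num
        _ ≤ 2 * (2 * M₀ + 7) * (ε / (8 * 2 * (2 * M₀ + 7)) * n) := by gcongr
        _ = ε / 8 * n := by field_simp
    have hle : j * (1 + Q 3 k) ≤ k := by
      have : ((j * (1 + Q 3 k) : ℕ) : ℝ) ≤ k := by
        have : 0 < ε * n := by positivity
        linarith
      exact_mod_cast this
    have hdrop := Q_drop k j hle
    obtain ⟨s, hs⟩ : ∃ s, s = k - j * (1 + Q 3 k) := ⟨_, rfl⟩
    rw [← hs] at hdrop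
    have hdrop' : (Q 3 s : ℝ) + j ≤ Q 3 k := by exact_mod_cast hdrop
    have hsr : (k : ℝ) - ε / 8 * n ≤ s := by
      rw [hs, Nat.cast_sub hle]
      linarith
    have hsk : s ≤ k := by rw [hs]; exact Nat.sub_le _ _
    have hsk' : (s : ℝ) ≤ k := by exact_mod_cast hsk
    have hsε : ε * n ≤ s := by
      have : 0 < ε * n := by positivity
      linarith
    have hs0' : (0 : ℝ) < s := lt_of_lt_of_le (by positivity) hsε
    have hs0 : 0 < s := by exact_mod_cast hs0'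
    obtain ⟨M, hMdef⟩ : ∃ M, M = n / (2 * s) := ⟨_, rfl⟩
    have hM1 : 1 ≤ M := by
      rw [hMdef, Nat.le_div_iff_mul_le (by omega)]
      omega
    have hMs : 2 * M * s ≤ n := by
      have := Nat.div_mul_le_self n (2 * s)
      rw [← hMdef] at this
      calc 2 * M * s = M * (2 * s) := by ring
        _ ≤ n := this
    have hMs2 : n < (M + 1) * (2 * s) := by
      have := Nat.lt_mul_div_succ n (show 0 < 2 * s by omega)
      rw [← hMdef] at this
      calc n < 2 * s * (M + 1) := this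
        _ = (M + 1) * (2 * s) := by ring
    have hMM₀ : M ≤ M₀ := by
      have h8 : (2 : ℝ) * M * s ≤ n := by exact_mod_cast hMs
      have hM0' : (0 : ℝ) ≤ M := Nat.cast_nonneg M
      have h9 : (2 : ℝ) * M * (ε * n) ≤ n := le_trans (by gcongr) h8
      have h10 : (2 : ℝ) * M * ε ≤ 1 := by
        have : (2 * M * ε) * n ≤ 1 * (n : ℝ) := by linarith
        exact le_of_mul_le_mul_right this hn0
      have h11 : (M : ℝ) ≤ 1 / ε := by
        rw [le_div_iff₀ hε]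
        nlinarith [mul_nonneg hM0' hε.le]
      exact_mod_cast h11.trans hM₀
    obtain ⟨G, hG5, hα, _, hE⟩ := h4 M (Finset.mem_Icc.2 ⟨hM1, hMM₀⟩) s hs0 hMs
    have hMM₀' : (M : ℝ) ≤ M₀ := by exact_mod_cast hMM₀
    have h9 : (G.indepNum : ℝ) < fc c n := by
      unfold fc
      have h10 : (2 * (M : ℝ) + 5) * b ≤ (2 * M₀ + 5) * b := by gcongr
      nlinarith
    have h10 : (G.edgeSet.ncard : ℝ) ≤ RTnum n 5 (fc c n) := by
      exact_mod_cast le_RT G hG5 h9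
    refine le_trans ?_ h10
    have h11 : (n : ℝ) * (n : ℝ) ^ (45 / 100 : ℝ) ≤ ε / 2 * (n : ℝ) ^ 2 := by
      calc (n : ℝ) * (n : ℝ) ^ (45 / 100 : ℝ) ≤ n * (ε / 2 * n) := by gcongr
        _ = ε / 2 * (n : ℝ) ^ 2 := by ring
    have h12 : ((n : ℝ) / 2 - s) * s ≤ M * s * s := by
      have h13 : (n : ℝ) < (M + 1) * (2 * s) := by exact_mod_cast hMs2
      have h14 : (n : ℝ) / 2 - s ≤ M * s := by nlinarith
      gcongr
    have h15 : (k : ℝ) * (n / 2 - k) - ε / 8 * n * (n / 2) ≤ (n / 2 - s) * s := by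
      have h16 : ((n : ℝ) / 2 - s) * s - k * (n / 2 - k) = (k - s) * (k + s - n / 2) := by ring
      have h17 : -((k : ℝ) - s) * (n / 2) ≤ (k - s) * (k + s - n / 2) := by
        have : 0 ≤ ((k : ℝ) - s) * (k + s) := by
          apply mul_nonneg (by linarith) (by linarith)
        nlinarith
      have h18 : ((k : ℝ) - s) * (n / 2) ≤ ε / 8 * n * (n / 2) := by
        apply mul_le_mul_of_nonneg_right _ (by positivity)
        linarith
      linarith
    have h19 : 0 ≤ ε * (n : ℝ) ^ 2 := by positivity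
    nlinarith

theorem lower_one (c : ℝ) (hc0 : 0 < c) (hc : c ≤ 1) (ε : ℝ) (hε : 0 < ε) :
    ∀ᶠ n : ℕ in atTop, ∀ k : ℕ, (Q 3 k : ℝ) < c * Q 3 (n / 2) →
      (k : ℝ) ^ 2 - ε * (n : ℝ) ^ 2 ≤ RTnum n 5 (fc c n) := by
  filter_upwards [sandwich c hc0 hc ε hε] with n h1 k hk
  have hb : BddAbove {k : ℕ | (Q 3 k : ℝ) < c * Q 3 (n / 2)} :=
    ⟨n / 2, fun k hk => (kc_bdd c hc n k hk).le⟩
  have h2 : k ≤ kc c n := le_csSup hb hk
  have h3 : (k : ℝ) ≤ kc c n := by exact_mod_cast h2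
  have h4 : (k : ℝ) ^ 2 ≤ (kc c n : ℝ) ^ 2 := by gcongr
  linarith [h1.1]

/-- explicit lower bound for the upper density -/
theorem le_upper2 (c : ℝ) (hc0 : 0 < c) (hc1 : c < 1) :
    c ^ 2 * (4 - c ^ 2) / 64 ≤ upperDensity 5 (fc c) := by
  have key : ∀ b : ℝ, 0 < b → b < c ^ 2 / 4 → b * (1 - b) / 4 ≤ upperDensity 5 (fc c) := by
    intro b hb0 hb
    have hb1 : b < 1 := by nlinarith
    obtain ⟨l, hl0, hl2, hlc⟩ : ∃ l : ℝ, 0 < l ∧ b < l ^ 2 ∧ l < c / 2 := by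
      refine ⟨Real.sqrt ((b + c ^ 2 / 4) / 2), Real.sqrt_pos.2 (by positivity), ?_, ?_⟩
      · rw [Real.sq_sqrt (by positivity)]
        linarith
      · rw [Real.sqrt_lt' (by positivity)]
        nlinarith
    apply le_upperDensity
    intro ε hε
    have h5 : ∃ᶠ N : ℕ in atTop, (fun n : ℕ => (b * (1 - b) / 4 - ε) * (n : ℝ) ^ 2 ≤
        (RTnum n 5 (fc c n) : ℝ)) (2 * N) := by
      have hev := (lower_two c hc1.le (ε / 2) (by positivity)).and
        (((tendsto_natCast_atTop_atTop (R := ℝ)).eventually_ge_atTop (1 / ε)).and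
          (eventually_ge_atTop 2))
      refine ((growthB b l hb0 hb1 hl0 hl2).and_eventually
        (tendsto_two_mul.eventually hev)).mono ?_
      rintro N ⟨hN1, h1, h2, h3⟩
      have hhalf : 2 * N / 2 = N := Nat.mul_div_cancel_left N (by norm_num)
      have hN0 : (0 : ℝ) < N := by
        have : 0 < N := by omega
        exact_mod_cast this
      have hQ1 : (1 : ℝ) ≤ Q 3 N := by exact_mod_cast one_le_Q (show 1 ≤ N by omega)
      have hs : (Q 3 ⌊b * (N : ℝ)⌋₊ : ℝ) < c / 2 * Q 3 (2 * N / 2) := by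
        rw [hhalf]
        calc (Q 3 ⌊b * (N : ℝ)⌋₊ : ℝ) ≤ l * Q 3 N := hN1
          _ < c / 2 * Q 3 N := by
            apply mul_lt_mul_of_pos_right hlc
            linarith
      have h6 := h1 _ hs
      have hf1 : ((⌊b * (N : ℝ)⌋₊ : ℕ) : ℝ) ≤ b * N := Nat.floor_le (by positivity)
      have hf2 : b * N < ((⌊b * (N : ℝ)⌋₊ : ℕ) : ℝ) + 1 := Nat.lt_floor_add_one _
      generalize ⌊b * (N : ℝ)⌋₊ = s at hf1 hf2 h6
      push_cast at h6 h2 ⊢
      have h7 : b * N * (N - b * N) - N ≤ (s : ℝ) * (2 * N / 2 - s) := by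
        have h8 : (2 : ℝ) * N / 2 - s = N - s := by ring
        rw [h8]
        have h9 : (b * N - 1) * (N - b * N) ≤ (s : ℝ) * (N - s) := by
          have h10 : 0 ≤ (N : ℝ) - b * N := by nlinarith
          have h11 : (b * N - 1) * (N - b * N) ≤ s * (N - b * N) := by
            apply mul_le_mul_of_nonneg_right (by linarith) h10
          have h12 : (s : ℝ) * (N - b * N) ≤ s * (N - s) := by
            apply mul_le_mul_of_nonneg_left (by linarith) (Nat.cast_nonneg s)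
          linarith
        nlinarith
      have h13 : (N : ℝ) ≤ ε / 2 * (2 * N) ^ 2 := by
        rw [div_le_iff₀ hε] at h2
        nlinarith
      nlinarith
    exact tendsto_two_mul.frequently h5
  have hlim : Tendsto (fun b : ℝ => b * (1 - b) / 4) (𝓝[<] (c ^ 2 / 4))
      (𝓝 (c ^ 2 / 4 * (1 - c ^ 2 / 4) / 4)) := by
    have : Continuous fun b : ℝ => b * (1 - b) / 4 := by fun_prop
    exact (this.tendsto _).mono_left nhdsWithin_le_nhds
  have h1 : c ^ 2 / 4 * (1 - c ^ 2 / 4) / 4 ≤ upperDensity 5 (fc c) := by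
    apply le_of_tendsto hlim
    have : Set.Ioo 0 (c ^ 2 / 4) ∈ 𝓝[<] (c ^ 2 / 4) := Ioo_mem_nhdsLT (by positivity)
    filter_upwards [this] with b hb
    exact key b hb.1 hb.2
  calc c ^ 2 * (4 - c ^ 2) / 64 = c ^ 2 / 4 * (1 - c ^ 2 / 4) / 4 := by ring
    _ ≤ _ := h1

end Pool.Agent.H50.RT2
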