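import Pool.Agent.H50.RT2.Core

/-!
# Main lemma: vertices of one cluster cannot have too many neighbours in a small set
-/

set_option maxHeartbeats 1000000

open Finset Filter Topology

namespace Pool.Agent.H50.RT2

open Pool.Agent.H54.RT

/-- choice of the number of random vertices -/
lemma step_t (M lam ξ Λ : ℝ) (hM : 0 ≤ M) (hξ : 0 < ξ) (hξΛ : ξ ≤ Λ) (hlam : 0 ≤ lam)
    (hlamΛ : lam ≤ Λ) : ∃ t : ℕ, lam * t ≤ M ∧ M * (1 + ξ / Λ) - 2 * Λ ≤ (ξ + lam) * t ∧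
      M - Λ ≤ Λ * t := by
  have hΛ : 0 < Λ := by linarith
  obtain ⟨l, hl0, hl1, hl2, h1⟩ : ∃ l : ℝ, 0 < l ∧ lam ≤ l ∧ l ≤ Λ ∧ (1 + ξ / Λ) * l ≤ ξ + lam := by
    refine ⟨max lam (ξ / 2), lt_max_of_lt_right (by linarith), le_max_left _ _,
      max_le hlamΛ (by linarith), ?_⟩
    rcases le_total (ξ / 2) lam with h | h
    · rw [max_eq_left h, add_mul, one_mul]
      have : ξ / Λ * lam ≤ ξ := by
        rw [div_mul_eq_mul_div, div_le_iff₀ hΛ]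
        gcongr
      linarith
    · rw [max_eq_right h]
      have : ξ / Λ ≤ 1 := by rw [div_le_one hΛ]; exact hξΛ
      nlinarith
  have hMl : 0 ≤ M / l := by positivity
  have ht1 : ((⌊M / l⌋₊ : ℕ) : ℝ) ≤ M / l := Nat.floor_le hMl
  have ht2 : M / l < (⌊M / l⌋₊ : ℕ) + 1 := Nat.lt_floor_add_one _
  generalize ⌊M / l⌋₊ = t at ht1 ht2
  have ht0 : (0 : ℝ) ≤ t := Nat.cast_nonneg t
  refine ⟨t, ?_, ?_, ?_⟩
  · calc lam * t ≤ l * t := by gcongr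
      _ ≤ l * (M / l) := by gcongr
      _ = M := by field_simp
  · have h2 : M * (1 + ξ / Λ) ≤ (ξ + lam) * (M / l) := by
      rw [mul_div_assoc', le_div_iff₀ hl0]
      calc M * (1 + ξ / Λ) * l = M * ((1 + ξ / Λ) * l) := by ring
        _ ≤ M * (ξ + lam) := by gcongr
        _ = (ξ + lam) * M := by ring
    have h3 : (ξ + lam) * (M / l) ≤ (ξ + lam) * (t + 1) := by
      gcongr
    have h4 : ξ + lam ≤ 2 * Λ := by linarith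
    linarith
  · have h5 : M / Λ ≤ M / l := by gcongr
    have h6 : M / Λ ≤ t + 1 := by linarith
    rw [div_le_iff₀ hΛ] at h6
    linarith

lemma ev_rpow (p : ℝ) (hp : 0 < p) (C : ℝ) : ∀ᶠ n : ℕ in atTop, C ≤ (n : ℝ) ^ p :=
  ((tendsto_rpow_atTop hp).comp tendsto_natCast_atTop_atTop).eventually_ge_atTop C

lemma ev_log (C : ℝ) : ∀ᶠ n : ℕ in atTop, C ≤ Real.log n :=
  (Real.tendsto_log_atTop.comp tendsto_natCast_atTop_atTop).eventually_ge_atTop C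

/-- the number `t` of random vertices for given parameters -/
lemma exists_t (ε η δ τ ξ Λ : ℝ) (hξ : Real.exp ξ = 1 + ε) (hΛ : Real.exp Λ = 1 / η) (hε : 0 < ε)
    (hη : 0 < η) (hξ0 : 0 < ξ) (hξΛ : ξ ≤ Λ) (h2τ : ξ / Λ = 2 * τ) (hτ1 : τ ≤ 1 / 2) (hδ0 : 0 < δ)
    (h3δ : 3 * δ ≤ 1 / 4) (n : ℕ) (hn : 1 ≤ n) (D r w a X : ℕ) (hDn : η * n ≤ D) (hDr : D ≤ r)
    (hrn : r ≤ n) (hw : (n : ℝ) ^ (1 - δ) ≤ w) (ha : (a : ℝ) ≤ (n : ℝ) ^ (1 / 2 + δ))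
    (E1 : 2 ≤ (n : ℝ) ^ δ) (E2 : 8 * Λ + Real.log 4 ≤ Real.log n)
    (hDX : (1 + ε) * X * r ≤ (D : ℝ) ^ 2) :
    ∃ t : ℕ, 2 * a * r ^ t ≤ w * D ^ t ∧ 4 * n * ⌊η ^ 8 * (D : ℝ)⌋₊ ^ t ≤ D ^ t ∧
      ∀ z : ℕ, D ^ t ≤ 4 * z * X ^ t →
        Real.exp (Real.log n * (1 / 2 + τ - 6 * δ) - 2 * Λ) ≤ 4 * z := by
  have hn1 : (1 : ℝ) ≤ n := by exact_mod_cast hn
  have hn0 : (0 : ℝ) < n := by linarith
  have hL0 : 0 ≤ Real.log n := Real.log_nonneg hn1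
  have hpow : ∀ p : ℝ, (n : ℝ) ^ p = Real.exp (Real.log n * p) :=
    fun p => Real.rpow_def_of_pos hn0 p
  have hnL : (n : ℝ) = Real.exp (Real.log n) := (Real.exp_log hn0).symm
  have hD0 : (0 : ℝ) < D := lt_of_lt_of_le (by positivity) hDn
  have hr0 : (0 : ℝ) < r := lt_of_lt_of_le hD0 (by exact_mod_cast hDr)
  have hrn' : (r : ℝ) ≤ n := by exact_mod_cast hrn
  have hDr' : (D : ℝ) ≤ r := by exact_mod_cast hDr
  have hΛ0 : 0 < Λ := by linarith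
  obtain ⟨lam, hrD, hlam0, hlamΛ⟩ : ∃ lam : ℝ, Real.exp lam = r / D ∧ 0 ≤ lam ∧ lam ≤ Λ := by
    refine ⟨Real.log ((r : ℝ) / D), Real.exp_log (by positivity),
      Real.log_nonneg (by rw [le_div_iff₀ hD0]; linarith), ?_⟩
    rw [Real.log_le_iff_le_exp (by positivity), hΛ, div_le_div_iff₀ hD0 hη]
    nlinarith
  have hDexp : (D : ℝ) = Real.exp (-lam) * r := by
    rw [Real.exp_neg, hrD]
    field_simp
  generalize hLdef : Real.log (n : ℝ) = L at *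
  obtain ⟨t, ht1, ht2, ht3⟩ := step_t ((1 / 2 - 3 * δ) * L) lam ξ Λ
    (by apply mul_nonneg (by linarith) hL0) hξ0 hξΛ hlam0 hlamΛ
  rw [h2τ] at ht2
  have hDt : (D : ℝ) ^ t = Real.exp (-lam * t) * (r : ℝ) ^ t := by
    nth_rewrite 1 [hDexp]
    rw [mul_pow, ← Real.exp_nat_mul]
    congr 2
    ring
  refine ⟨t, ?_, ?_, ?_⟩
  · have h1 : (2 : ℝ) * a ≤ w * Real.exp (-lam * t) := by
      calc (2 : ℝ) * a ≤ (n : ℝ) ^ δ * (n : ℝ) ^ (1 / 2 + δ) := by gcongr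
        _ = Real.exp (L * (1 - δ)) * Real.exp (-((1 / 2 - 3 * δ) * L)) := by
            rw [hpow, hpow, ← Real.exp_add, ← Real.exp_add]
            congr 1
            ring
        _ ≤ w * Real.exp (-lam * t) := by
            rw [hpow] at hw
            have h2 : Real.exp (-((1 / 2 - 3 * δ) * L)) ≤ Real.exp (-lam * t) :=
              Real.exp_le_exp.2 (by linarith)
            gcongr
    have h3 : (2 : ℝ) * a * (r : ℝ) ^ t ≤ w * (D : ℝ) ^ t := by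
      rw [hDt, ← mul_assoc]
      gcongr
    exact_mod_cast h3
  · have hbD : ((⌊η ^ 8 * (D : ℝ)⌋₊ : ℕ) : ℝ) ≤ η ^ 8 * D := Nat.floor_le (by positivity)
    generalize ⌊η ^ 8 * (D : ℝ)⌋₊ = b at hbD
    have h1 : (b : ℝ) ^ t ≤ (η ^ 8) ^ t * (D : ℝ) ^ t := by
      rw [← mul_pow]
      exact pow_le_pow_left₀ (Nat.cast_nonneg _) hbD t
    have h2 : 4 * (n : ℝ) * (η ^ 8) ^ t ≤ 1 := by
      have h3 : η = Real.exp (-Λ) := by rw [Real.exp_neg, hΛ]; field_simp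
      have h4 : (4 : ℝ) = Real.exp (Real.log 4) := (Real.exp_log (by norm_num)).symm
      have h5 : (η ^ 8) ^ t = Real.exp (-(8 * (Λ * t))) := by
        rw [← pow_mul, h3, ← Real.exp_nat_mul]
        congr 1
        push_cast
        ring
      have h6 : 4 * (n : ℝ) * (η ^ 8) ^ t = Real.exp (Real.log 4 + L + -(8 * (Λ * t))) := by
        rw [h5, Real.exp_add, Real.exp_add, ← h4, ← hnL]
      rw [h6, ← Real.exp_zero]
      apply Real.exp_le_exp.2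
      nlinarith
    have h6 : (4 : ℝ) * n * (b : ℝ) ^ t ≤ (D : ℝ) ^ t := by
      calc (4 : ℝ) * n * (b : ℝ) ^ t ≤ 4 * n * ((η ^ 8) ^ t * (D : ℝ) ^ t) := by gcongr
        _ = (4 * n * (η ^ 8) ^ t) * (D : ℝ) ^ t := by ring
        _ ≤ 1 * (D : ℝ) ^ t := by gcongr
        _ = (D : ℝ) ^ t := one_mul _
    exact_mod_cast h6
  · intro z hz
    have hz' : (D : ℝ) ^ t ≤ 4 * z * (X : ℝ) ^ t := by exact_mod_cast hz
    have hXD : (X : ℝ) ≤ Real.exp (-(ξ + lam)) * D := by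
      have h1 : Real.exp (-(ξ + lam)) = D / ((1 + ε) * r) := by
        rw [Real.exp_neg, Real.exp_add, hξ, hrD]
        field_simp
      rw [h1, div_mul_eq_mul_div, le_div_iff₀ (by positivity)]
      nlinarith
    have h1 : (X : ℝ) ^ t ≤ Real.exp (-((ξ + lam) * t)) * (D : ℝ) ^ t := by
      calc (X : ℝ) ^ t ≤ (Real.exp (-(ξ + lam)) * D) ^ t := pow_le_pow_left₀ (Nat.cast_nonneg _) hXD t
        _ = Real.exp (-((ξ + lam) * t)) * (D : ℝ) ^ t := by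
            rw [mul_pow, ← Real.exp_nat_mul]
            congr 2
            ring
    have h2 : (D : ℝ) ^ t ≤ 4 * z * (Real.exp (-((ξ + lam) * t)) * (D : ℝ) ^ t) := by
      refine hz'.trans ?_
      gcongr
    have h3 : 0 < (D : ℝ) ^ t := by positivity
    have h4 : 1 ≤ 4 * z * Real.exp (-((ξ + lam) * t)) := by
      have : 1 * (D : ℝ) ^ t ≤ (4 * z * Real.exp (-((ξ + lam) * t))) * (D : ℝ) ^ t := by
        rw [one_mul]
        calc (D : ℝ) ^ t ≤ 4 * z * (Real.exp (-((ξ + lam) * t)) * (D : ℝ) ^ t) := h2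
          _ = _ := by ring
      exact le_of_mul_le_mul_right this h3
    rw [Real.exp_neg, ← div_eq_mul_inv, le_div_iff₀ (Real.exp_pos _), one_mul] at h4
    refine le_trans (Real.exp_le_exp.2 ?_) h4
    refine le_trans ?_ ht2
    have h5 : 1 / 2 + τ - 6 * δ ≤ (1 / 2 - 3 * δ) * (1 + 2 * τ) := by nlinarith
    have h6 : L * (1 / 2 + τ - 6 * δ) ≤ L * ((1 / 2 - 3 * δ) * (1 + 2 * τ)) := by gcongr
    linarith

/-- lower bound for the number of adjacent pairs -/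
lemma density (η δ τ : ℝ) (hη : 0 < η) (n : ℕ) (hn : 1 ≤ n) (a D X b P : ℕ) (z : ℝ)
    (hz : 0 ≤ z) (ha : (a : ℝ) ≤ (n : ℝ) ^ (1 / 2 + δ)) (hDn : (D : ℝ) ≤ n) (hXn : (X : ℝ) ≤ n)
    (hb : η ^ 9 * n / 2 ≤ b) (haz : (a : ℝ) ≤ (n : ℝ) ^ (-(τ - 8 * δ)) * z)
    (E5 : 16 / η ^ 18 ≤ (n : ℝ) ^ (τ - 8 * δ)) (E6 : 8 / η ^ 18 ≤ (n : ℝ) ^ δ)
    (hd : ((b : ℝ) * z) ^ 2 ≤ D * ((a : ℝ) ^ 2 * P + 2 * a * (X * z))) :
    (n : ℝ) ^ (-(3 * δ)) * z ^ 2 ≤ P := by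
  have hn1 : (1 : ℝ) ≤ n := by exact_mod_cast hn
  have hn0 : (0 : ℝ) < n := by linarith
  have ha0 : (0 : ℝ) ≤ a := Nat.cast_nonneg a
  have hP0 : (0 : ℝ) ≤ P := Nat.cast_nonneg P
  have h16 : 16 * (a : ℝ) ≤ η ^ 18 * z := by
    rw [div_le_iff₀ (by positivity)] at E5
    have h1 : (n : ℝ) ^ (τ - 8 * δ) * (n : ℝ) ^ (-(τ - 8 * δ)) = 1 := by
      rw [← Real.rpow_add hn0, add_neg_cancel, Real.rpow_zero]
    calc 16 * (a : ℝ) ≤ 16 * ((n : ℝ) ^ (-(τ - 8 * δ)) * z) := by gcongr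
      _ ≤ ((n : ℝ) ^ (τ - 8 * δ) * η ^ 18) * ((n : ℝ) ^ (-(τ - 8 * δ)) * z) := by gcongr
      _ = ((n : ℝ) ^ (τ - 8 * δ) * (n : ℝ) ^ (-(τ - 8 * δ))) * (η ^ 18 * z) := by ring
      _ = η ^ 18 * z := by rw [h1, one_mul]
  have hPlow : η ^ 18 / 8 * n * z ^ 2 ≤ (a : ℝ) ^ 2 * P := by
    have h1 : (η ^ 9 * n / 2 * z) ^ 2 ≤ n * ((a : ℝ) ^ 2 * P + 2 * a * (n * z)) := by
      calc (η ^ 9 * n / 2 * z) ^ 2 ≤ ((b : ℝ) * z) ^ 2 := by gcongr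
        _ ≤ D * ((a : ℝ) ^ 2 * P + 2 * a * (X * z)) := hd
        _ ≤ n * ((a : ℝ) ^ 2 * P + 2 * a * (n * z)) := by gcongr
    have h2 : (η ^ 9 * n / 2 * z) ^ 2 = n * (η ^ 18 / 4 * n * z ^ 2) := by ring
    rw [h2] at h1
    have h3 : η ^ 18 / 4 * n * z ^ 2 ≤ (a : ℝ) ^ 2 * P + 2 * a * (n * z) :=
      le_of_mul_le_mul_left h1 hn0
    have h4 : 2 * a * (n * z) ≤ η ^ 18 / 8 * n * z ^ 2 := by
      have h5 : 16 * (a : ℝ) * (n * z) ≤ η ^ 18 * z * (n * z) := by gcongr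
      nlinarith
    linarith
  have h1 : (a : ℝ) ^ 2 ≤ n * (n : ℝ) ^ (2 * δ) := by
    calc (a : ℝ) ^ 2 ≤ ((n : ℝ) ^ (1 / 2 + δ)) ^ 2 := by gcongr
      _ = n * (n : ℝ) ^ (2 * δ) := by
          rw [← Real.rpow_natCast, ← Real.rpow_mul hn0.le]
          nth_rewrite 2 [← Real.rpow_one (n : ℝ)]
          rw [← Real.rpow_add hn0]
          congr 1
          push_cast
          ring
  have h2 : η ^ 18 / 8 * n * z ^ 2 ≤ n * (n : ℝ) ^ (2 * δ) * P := by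
    refine hPlow.trans ?_
    gcongr
  have h3 : η ^ 18 / 8 * z ^ 2 ≤ (n : ℝ) ^ (2 * δ) * P := by
    have : n * (η ^ 18 / 8 * z ^ 2) ≤ n * ((n : ℝ) ^ (2 * δ) * P) := by
      calc n * (η ^ 18 / 8 * z ^ 2) = η ^ 18 / 8 * n * z ^ 2 := by ring
        _ ≤ n * (n : ℝ) ^ (2 * δ) * P := h2
        _ = _ := by ring
    exact le_of_mul_le_mul_left this hn0
  have h4 : (n : ℝ) ^ (-δ) ≤ η ^ 18 / 8 := by
    rw [Real.rpow_neg hn0.le]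
    rw [div_le_iff₀ (by positivity)] at E6
    rw [inv_le_iff_one_le_mul₀ (by positivity)]
    linarith
  have h5 : (n : ℝ) ^ (2 * δ) * ((n : ℝ) ^ (-(3 * δ)) * z ^ 2) ≤ (n : ℝ) ^ (2 * δ) * P := by
    calc (n : ℝ) ^ (2 * δ) * ((n : ℝ) ^ (-(3 * δ)) * z ^ 2) = (n : ℝ) ^ (-δ) * z ^ 2 := by
          rw [← mul_assoc, ← Real.rpow_add hn0]
          congr 2
          ring
      _ ≤ η ^ 18 / 8 * z ^ 2 := by gcongr
      _ ≤ _ := h3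
  exact le_of_mul_le_mul_left h5 (by positivity)

/-- the final contradiction -/
lemma contra (δ τ : ℝ) (hτ0 : 0 < τ) (hτ1 : τ ≤ 1 / 2) (hδ : δ = τ ^ 2 / 60) (n : ℕ) (hn : 1 ≤ n)
    (a P q : ℕ) (z : ℝ) (hz0 : 0 < z) (ha : (a : ℝ) ≤ (n : ℝ) ^ (1 / 2 + δ))
    (haz : (a : ℝ) ≤ (n : ℝ) ^ (-(τ - 8 * δ)) * z) (hq1 : 4 / τ ≤ q) (hq2 : (q : ℝ) < 4 / τ + 1)
    (hγ : (n : ℝ) ^ (-(3 * δ)) * z ^ 2 ≤ P)
    (hdrc : (P : ℝ) ^ (q + 1) ≤ z ^ q * (z ^ (q + 1) * a + z ^ 2 * (a : ℝ) ^ (q + 1)))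
    (E7 : 3 ≤ (n : ℝ) ^ (τ / 4)) : False := by
  have hn1 : (1 : ℝ) ≤ n := by exact_mod_cast hn
  have hn0 : (0 : ℝ) < n := by linarith
  have hδ0 : 0 < δ := by rw [hδ]; positivity
  have hδτ : δ ≤ τ / 120 := by rw [hδ]; nlinarith
  have hyeq : ((n : ℝ) ^ (-(τ - 8 * δ))) ^ q * (n : ℝ) ^ (1 / 2 + δ) ≤ (n : ℝ) ^ (-(τ / 2)) := by
    rw [← Real.rpow_natCast, ← Real.rpow_mul hn0.le, ← Real.rpow_add hn0]
    apply Real.rpow_le_rpow_of_exponent_le hn1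
    rw [div_le_iff₀ hτ0] at hq1
    have h5 : (τ / 2) * q ≤ (τ - 8 * δ) * q := by
      apply mul_le_mul_of_nonneg_right _ (Nat.cast_nonneg q)
      linarith
    nlinarith
  have hy1 : (n : ℝ) ^ (-(τ - 8 * δ)) ≤ (n : ℝ) ^ (-(τ / 2)) :=
    Real.rpow_le_rpow_of_exponent_le hn1 (by linarith)
  have hy0 : 0 < (n : ℝ) ^ (-(τ - 8 * δ)) := by positivity
  generalize (n : ℝ) ^ (-(τ - 8 * δ)) = y at hy0 hy1 hyeq haz
  have ha0 : (0 : ℝ) ≤ a := Nat.cast_nonneg a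
  have hup : (P : ℝ) ^ (q + 1) ≤ 2 * (n : ℝ) ^ (-(τ / 2)) * z ^ (2 * (q + 1)) := by
    have h1 : z ^ q * (z ^ (q + 1) * a) ≤ (n : ℝ) ^ (-(τ / 2)) * z ^ (2 * (q + 1)) := by
      calc z ^ q * (z ^ (q + 1) * a) ≤ z ^ q * (z ^ (q + 1) * ((n : ℝ) ^ (-(τ / 2)) * z)) := by
            have : (a : ℝ) ≤ (n : ℝ) ^ (-(τ / 2)) * z := haz.trans (by gcongr)
            gcongr
        _ = (n : ℝ) ^ (-(τ / 2)) * z ^ (2 * (q + 1)) := by ring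
    have h2 : z ^ q * (z ^ 2 * (a : ℝ) ^ (q + 1)) ≤ (n : ℝ) ^ (-(τ / 2)) * z ^ (2 * (q + 1)) := by
      have h3 : (a : ℝ) ^ (q + 1) ≤ y ^ q * z ^ q * (n : ℝ) ^ (1 / 2 + δ) := by
        rw [pow_succ, ← mul_pow]
        gcongr
      calc z ^ q * (z ^ 2 * (a : ℝ) ^ (q + 1))
          ≤ z ^ q * (z ^ 2 * (y ^ q * z ^ q * (n : ℝ) ^ (1 / 2 + δ))) := by gcongr
        _ = (y ^ q * (n : ℝ) ^ (1 / 2 + δ)) * z ^ (2 * (q + 1)) := by ring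
        _ ≤ (n : ℝ) ^ (-(τ / 2)) * z ^ (2 * (q + 1)) := by gcongr
    calc (P : ℝ) ^ (q + 1) ≤ z ^ q * (z ^ (q + 1) * a + z ^ 2 * (a : ℝ) ^ (q + 1)) := hdrc
      _ = z ^ q * (z ^ (q + 1) * a) + z ^ q * (z ^ 2 * (a : ℝ) ^ (q + 1)) := by ring
      _ ≤ _ := by linarith
  have hlow : (n : ℝ) ^ (-(τ / 4)) * z ^ (2 * (q + 1)) ≤ (P : ℝ) ^ (q + 1) := by
    calc (n : ℝ) ^ (-(τ / 4)) * z ^ (2 * (q + 1))
        ≤ ((n : ℝ) ^ (-(3 * δ))) ^ (q + 1) * z ^ (2 * (q + 1)) := by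
          apply mul_le_mul_of_nonneg_right _ (by positivity)
          rw [← Real.rpow_natCast, ← Real.rpow_mul hn0.le]
          apply Real.rpow_le_rpow_of_exponent_le hn1
          push_cast
          have h1 : (q : ℝ) + 1 ≤ 5 / τ := by
            have : (2 : ℝ) ≤ 1 / τ := by rw [le_div_iff₀ hτ0]; linarith
            have h5 : 5 / τ = 4 / τ + 1 / τ := by ring
            linarith
          have h2 : 3 * δ * ((q : ℝ) + 1) ≤ 3 * δ * (5 / τ) := by gcongr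
          have h3 : 3 * δ * (5 / τ) = τ / 4 := by rw [hδ]; field_simp; norm_num
          linarith
      _ = ((n : ℝ) ^ (-(3 * δ)) * z ^ 2) ^ (q + 1) := by
          rw [mul_pow, ← pow_mul]
      _ ≤ (P : ℝ) ^ (q + 1) := by gcongr
  have hfin : (n : ℝ) ^ (-(τ / 4)) * z ^ (2 * (q + 1)) ≤
      2 * (n : ℝ) ^ (-(τ / 2)) * z ^ (2 * (q + 1)) := hlow.trans hup
  have hzp : 0 < z ^ (2 * (q + 1)) := by positivity
  have hfin2 : (n : ℝ) ^ (-(τ / 4)) ≤ 2 * (n : ℝ) ^ (-(τ / 2)) := le_of_mul_le_mul_right hfin hzp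
  have h9 : (n : ℝ) ^ (τ / 2) * (n : ℝ) ^ (-(τ / 4)) = (n : ℝ) ^ (τ / 4) := by
    rw [← Real.rpow_add hn0]
    congr 1
    ring
  have h10 : (n : ℝ) ^ (τ / 2) * (n : ℝ) ^ (-(τ / 2)) = 1 := by
    rw [← Real.rpow_add hn0, add_neg_cancel, Real.rpow_zero]
  have h11 : (n : ℝ) ^ (τ / 2) * (n : ℝ) ^ (-(τ / 4)) ≤
      (n : ℝ) ^ (τ / 2) * (2 * (n : ℝ) ^ (-(τ / 2))) := by gcongr
  rw [h9] at h11
  nlinarith

end Pool.Agent.H50.RT2
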