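import Pool.Agent.H50.RT2.Main

/-!
# Main lemma: statement and assembly
-/

set_option maxHeartbeats 1000000

open Finset Filter Topology

namespace Pool.Agent.H50.RT2

open Pool.Agent.H54.RT

/-- **Main lemma.** If `G` is `K₅`-free with independence number at most `n^{1/2+δ}`, every vertex
`x ∈ W` has a set `N x ⊆ S` of exactly `D ≥ η n` neighbours, adjacent vertices of `W` have at most
`X` common elements in these sets, and `(1+ε) X |S| ≤ D²`, then `|W| < n^{1-δ}`. -/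
theorem main_lemma (ε η : ℝ) (hε : 0 < ε) (hε1 : ε ≤ 1) (hη : 0 < η) (hη1 : η ≤ 1 / 2) :
    ∃ δ : ℝ, 0 < δ ∧ δ < 1 / 100 ∧ ∀ᶠ n : ℕ in atTop, ∀ G : SimpleGraph (Fin n), G.CliqueFree 5 →
      ∀ a : ℕ, (∀ s : Finset (Fin n), G.IsIndepSet (s : Set (Fin n)) → #s ≤ a) →
      (a : ℝ) ≤ (n : ℝ) ^ (1 / 2 + δ) → ∀ (S W : Finset (Fin n)) (N : Fin n → Finset (Fin n))
      (D X : ℕ), (∀ x ∈ W, N x ⊆ S) → (∀ x ∈ W, #(N x) = D) → (∀ x ∈ W, ∀ v ∈ N x, G.Adj x v) →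
      (∀ x ∈ W, ∀ y ∈ W, G.Adj x y → #(N x ∩ N y) ≤ X) → η * n ≤ D →
      (1 + ε) * X * #S ≤ (D : ℝ) ^ 2 → (#W : ℝ) < (n : ℝ) ^ (1 - δ) := by
  classical
  obtain ⟨ξ, hξ, hξ0, hξ2⟩ : ∃ ξ : ℝ, Real.exp ξ = 1 + ε ∧ 0 < ξ ∧ ξ ≤ Real.log 2 :=
    ⟨Real.log (1 + ε), Real.exp_log (by linarith), Real.log_pos (by linarith),
      Real.log_le_log (by linarith) (by linarith)⟩
  obtain ⟨Λ, hΛ, hΛ2⟩ : ∃ Λ : ℝ, Real.exp Λ = 1 / η ∧ Real.log 2 ≤ Λ := by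
    refine ⟨Real.log (1 / η), Real.exp_log (by positivity), Real.log_le_log (by norm_num) ?_⟩
    rw [le_div_iff₀ hη]
    linarith
  have hξΛ : ξ ≤ Λ := hξ2.trans hΛ2
  have hΛ0 : 0 < Λ := by linarith
  obtain ⟨τ, h2τ, hτ0, hτ1⟩ : ∃ τ : ℝ, ξ / Λ = 2 * τ ∧ 0 < τ ∧ τ ≤ 1 / 2 := by
    refine ⟨ξ / Λ / 2, by ring, by positivity, ?_⟩
    have : ξ / Λ ≤ 1 := by rw [div_le_one hΛ0]; exact hξΛ
    linarith
  obtain ⟨δ, hδ⟩ : ∃ δ : ℝ, δ = τ ^ 2 / 60 := ⟨_, rfl⟩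
  have hδ0 : 0 < δ := by rw [hδ]; positivity
  have hδτ : δ ≤ τ / 120 := by rw [hδ]; nlinarith
  have hδ1 : δ < 1 / 100 := by linarith
  refine ⟨δ, hδ0, hδ1, ?_⟩
  obtain ⟨q, hq1, hq2⟩ : ∃ q : ℕ, 4 / τ ≤ q ∧ (q : ℝ) < 4 / τ + 1 :=
    ⟨⌈4 / τ⌉₊, Nat.le_ceil _, Nat.ceil_lt_add_one (by positivity)⟩
  filter_upwards [ev_rpow δ hδ0 2, ev_log (8 * Λ + Real.log 4), ev_rpow δ hδ0 (4 * Real.exp (2 * Λ)),
    (tendsto_natCast_atTop_atTop (R := ℝ)).eventually_ge_atTop (2 / η ^ 9),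
    ev_rpow (τ - 8 * δ) (by linarith) (16 / η ^ 18), ev_rpow δ hδ0 (8 / η ^ 18),
    ev_rpow (τ / 4) (by linarith) 3, eventually_ge_atTop 1] with n E1 E2 E3 E4 E5 E6 E7 hn
  intro G hG a ha haR S W N D X hNS hND hNadj hX hDn hDX
  by_contra hcon
  push Not at hcon
  have hn1 : (1 : ℝ) ≤ n := by exact_mod_cast hn
  have hn0 : (0 : ℝ) < n := by linarith
  have hpow : ∀ p : ℝ, (n : ℝ) ^ p = Real.exp (Real.log n * p) :=
    fun p => Real.rpow_def_of_pos hn0 p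
  have hWpos : (0 : ℝ) < #W := lt_of_lt_of_le (by positivity) hcon
  have hW : W.Nonempty := by
    rw [← card_pos]
    exact_mod_cast hWpos
  obtain ⟨w, hw⟩ := hW
  have hDr : D ≤ #S := by
    rw [← hND w hw]
    exact card_le_card (hNS w hw)
  have hrn : #S ≤ n := by
    have := card_le_univ S
    rwa [Fintype.card_fin] at this
  have hDn' : (D : ℝ) ≤ n := by exact_mod_cast hDr.trans hrn
  obtain ⟨t, hi, hiii, hzt⟩ := exists_t ε η δ τ ξ Λ hξ hΛ hε hη hξ0 hξΛ h2τ hτ1 hδ0 (by linarith) n hn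
    D #S #W a X hDn hDr hrn hcon haR E1 E2 hDX
  have hbl : η ^ 9 * n / 2 ≤ (⌊η ^ 8 * (D : ℝ)⌋₊ : ℕ) := by
    have h1 : η ^ 8 * (D : ℝ) < (⌊η ^ 8 * (D : ℝ)⌋₊ : ℕ) + 1 := Nat.lt_floor_add_one _
    have h2 : η ^ 8 * (η * n) ≤ η ^ 8 * D := by gcongr
    rw [div_le_iff₀ (by positivity)] at E4
    nlinarith
  generalize ⌊η ^ 8 * (D : ℝ)⌋₊ = b at hbl hiii
  obtain ⟨x, hxW, Z, hZW, hZ, hDZ⟩ := pick G a ha S W N D X b t hNS hND hX hi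
    (by rw [Fintype.card_fin]; exact hiii) ⟨w, hw⟩
  have h1 := hzt #Z hDZ
  have hZlow : (n : ℝ) ^ (1 / 2 + τ - 7 * δ) ≤ #Z := by
    have h4 : 4 * Real.exp (2 * Λ) * (n : ℝ) ^ (1 / 2 + τ - 7 * δ) ≤
        (n : ℝ) ^ δ * (n : ℝ) ^ (1 / 2 + τ - 7 * δ) := by gcongr
    have h5 : (n : ℝ) ^ δ * (n : ℝ) ^ (1 / 2 + τ - 7 * δ)
        = Real.exp (2 * Λ) * Real.exp (Real.log n * (1 / 2 + τ - 6 * δ) - 2 * Λ) := by
      rw [hpow, hpow, ← Real.exp_add, ← Real.exp_add]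
      congr 1
      ring
    rw [h5] at h4
    have h6 : 0 < Real.exp (2 * Λ) := Real.exp_pos _
    have h7 : 4 * (n : ℝ) ^ (1 / 2 + τ - 7 * δ) ≤
        Real.exp (Real.log n * (1 / 2 + τ - 6 * δ) - 2 * Λ) := by
      have : Real.exp (2 * Λ) * (4 * (n : ℝ) ^ (1 / 2 + τ - 7 * δ)) ≤
          Real.exp (2 * Λ) * Real.exp (Real.log n * (1 / 2 + τ - 6 * δ) - 2 * Λ) := by linarith
      exact le_of_mul_le_mul_left this h6
    linarith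
  have hz0 : (0 : ℝ) < #Z := lt_of_lt_of_le (by positivity) hZlow
  have haz : (a : ℝ) ≤ (n : ℝ) ^ (-(τ - 8 * δ)) * #Z := by
    calc (a : ℝ) ≤ (n : ℝ) ^ (1 / 2 + δ) := haR
      _ = (n : ℝ) ^ (-(τ - 8 * δ)) * (n : ℝ) ^ (1 / 2 + τ - 7 * δ) := by
          rw [← Real.rpow_add hn0]
          congr 1
          ring
      _ ≤ _ := by gcongr
  -- X ≤ n
  have hD0 : (0 : ℝ) < D := lt_of_lt_of_le (by positivity) hDn
  have hS0 : (0 : ℝ) < #S := lt_of_lt_of_le hD0 (by exact_mod_cast hDr)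
  have hXn : (X : ℝ) ≤ n := by
    have h2 : (X : ℝ) * #S ≤ D * #S := by
      have h3 : (D : ℝ) ≤ #S := by exact_mod_cast hDr
      have h4 : (X : ℝ) * #S ≤ (1 + ε) * X * #S := by
        have : (0 : ℝ) ≤ X * #S := by positivity
        nlinarith
      nlinarith
    exact (le_of_mul_le_mul_right h2 hS0).trans hDn'
  have hdense := dense G hG a ha N x Z D X b (hND x hxW) (hNadj x hxW)
    (fun y hy => hNadj y (hZW hy)) (fun y hy => (hZ y hy).1) (fun y hy => (hZ y hy).2)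
    (fun y hy => hX x hxW y (hZW hy) (hZ y hy).1)
  have hγ := density η δ τ hη n hn a D X b (adjPairs G Z) #Z hz0.le haR hDn' hXn hbl haz E5 E6
    (by exact_mod_cast hdense)
  have hdrc := drcZ G a ha Z (by
    intro u hu v hv y hy w hw huv huy huw hvy hvw hyw
    exact five_clique G hG x u v y w (hZ u hu).1 (hZ v hv).1 (hZ y hy).1 (hZ w hw).1
      huv huy huw hvy hvw hyw) q
  exact contra δ τ hτ0 hτ1 hδ n hn a (adjPairs G Z) q #Z hz0 haR haz hq1 hq2 hγ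
    (by exact_mod_cast hdrc) E7

end Pool.Agent.H50.RT2
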