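import Pool.Agent.H50.RT2.Main2

/-!
# Regularity argument with the square-root inequality in every cluster
-/

set_option maxHeartbeats 1000000

open Finset SzemerediRegularity

namespace Pool.Agent.H50.RT2

open Pool.Agent.H54.RT

/-- Inequality for one cluster. -/
lemma part_le {n : ℕ} (G G' R : SimpleGraph (Fin n)) [DecidableRel G'.Adj] [DecidableRel R.Adj]
    (ε η B₁ : ℝ) (X : ℕ) (hη : 0 < η) (hε : 0 < ε) (hG'G : G' ≤ G) (hG'R : G' ≤ R)
    (H : ∀ (S W : Finset (Fin n)) (N : Fin n → Finset (Fin n)) (D : ℕ), (∀ x ∈ W, N x ⊆ S) →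
      (∀ x ∈ W, #(N x) = D) → (∀ x ∈ W, ∀ v ∈ N x, G.Adj x v) →
      (∀ x ∈ W, ∀ y ∈ W, G.Adj x y → #(N x ∩ N y) ≤ X) → η * n ≤ D →
      (1 + ε) * X * #S ≤ (D : ℝ) ^ 2 → (#W : ℝ) ≤ B₁)
    (hX : ∀ x y, G.Adj x y → ∀ s : Finset (Fin n), (∀ z ∈ s, G.Adj x z ∧ G.Adj y z) → #s ≤ X)
    (U : Finset (Fin n)) (hU : ∀ x ∈ U, ∀ y ∈ U, ∀ z, R.Adj x z ↔ R.Adj y z) :
    ∑ x ∈ U, (G'.degree x : ℝ) ≤
      ∑ x ∈ U, (Real.sqrt ((1 + ε) * X * R.degree x) + η * n + 1) + B₁ * n := by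
  classical
  have hB₁ : 0 ≤ B₁ := by
    have := H ∅ ∅ (fun _ => ∅) ⌈η * n + Real.sqrt ((1 + ε) * X)⌉₊ (by simp) (by simp) (by simp)
      (by simp) (by
        refine le_trans ?_ (Nat.le_ceil _)
        have : 0 ≤ Real.sqrt ((1 + ε) * X) := Real.sqrt_nonneg _
        linarith) (by simp)
    simpa using this
  rcases U.eq_empty_or_nonempty with rfl | ⟨u, hu⟩
  · simp only [sum_empty]
    positivity
  · set S : Finset (Fin n) := R.neighborFinset u with hS
    have hRS : ∀ x ∈ U, R.neighborFinset x = S := by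
      intro x hx
      ext z
      rw [hS, SimpleGraph.mem_neighborFinset, SimpleGraph.mem_neighborFinset]
      exact hU x hx u hu z
    have hRd : ∀ x ∈ U, R.degree x = #S := by
      intro x hx
      rw [← SimpleGraph.card_neighborFinset_eq_degree, hRS x hx]
    set d : ℝ := Real.sqrt ((1 + ε) * X * #S) + η * n with hd
    have hd0 : 0 ≤ d := by positivity
    set D : ℕ := ⌈d⌉₊ with hD
    have hD1 : d ≤ D := Nat.le_ceil _
    have hD2 : (D : ℝ) < d + 1 := Nat.ceil_lt_add_one hd0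
    have hex : ∀ x : Fin n, ∃ T : Finset (Fin n), D ≤ G'.degree x → T ⊆ G'.neighborFinset x ∧ #T = D := by
      intro x
      by_cases h : D ≤ G'.degree x
      · obtain ⟨T, hT1, hT2⟩ := exists_subset_card_eq (s := G'.neighborFinset x) (n := D)
          (by rw [SimpleGraph.card_neighborFinset_eq_degree]; exact h)
        exact ⟨T, fun _ => ⟨hT1, hT2⟩⟩
      · exact ⟨∅, fun h' => absurd h' h⟩
    choose N hN using hex
    set W : Finset (Fin n) := {x ∈ U | D ≤ G'.degree x} with hW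
    have hWm : ∀ x ∈ W, x ∈ U ∧ D ≤ G'.degree x := fun x hx => by
      rw [hW, mem_filter] at hx
      exact hx
    have hNadj' : ∀ x ∈ W, ∀ v ∈ N x, G'.Adj x v := by
      intro x hx v hv
      have := (hN x (hWm x hx).2).1 hv
      rwa [SimpleGraph.mem_neighborFinset] at this
    have hWB : (#W : ℝ) ≤ B₁ := by
      apply H S W N D
      · intro x hx v hv
        have h1 := hG'R (hNadj' x hx v hv)
        rw [← hRS x (hWm x hx).1, SimpleGraph.mem_neighborFinset]
        exact h1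
      · intro x hx
        exact (hN x (hWm x hx).2).2
      · intro x hx v hv
        exact hG'G (hNadj' x hx v hv)
      · intro x hx y hy hxy
        apply hX x y hxy
        intro z hz
        rw [mem_inter] at hz
        exact ⟨hG'G (hNadj' x hx z hz.1), hG'G (hNadj' y hy z hz.2)⟩
      · refine le_trans ?_ hD1
        have : 0 ≤ Real.sqrt ((1 + ε) * X * #S) := Real.sqrt_nonneg _
        rw [hd]
        linarith
      · have h0 : (0 : ℝ) ≤ (1 + ε) * X * #S := by positivity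
        have h1 : Real.sqrt ((1 + ε) * X * #S) ≤ D := by
          refine le_trans ?_ hD1
          rw [hd]
          have : 0 ≤ η * (n : ℝ) := by positivity
          linarith
        calc (1 + ε) * X * #S = (Real.sqrt ((1 + ε) * X * #S)) ^ 2 := (Real.sq_sqrt h0).symm
          _ ≤ (D : ℝ) ^ 2 := by gcongr
    have hterm : ∀ x ∈ U, (G'.degree x : ℝ) ≤
        (Real.sqrt ((1 + ε) * X * R.degree x) + η * n + 1) + (if x ∈ W then (n : ℝ) else 0) := by
      intro x hx
      have h0 : 0 ≤ Real.sqrt ((1 + ε) * X * R.degree x) := Real.sqrt_nonneg _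
      have h1 : 0 ≤ η * (n : ℝ) := by positivity
      by_cases h : x ∈ W
      · rw [if_pos h]
        have h2 : (G'.degree x : ℝ) ≤ n := by
          have := (G'.degree_lt_card_verts x).le
          rw [Fintype.card_fin] at this
          exact_mod_cast this
        linarith
      · rw [if_neg h, add_zero]
        have h2 : G'.degree x < D := by
          by_contra hc
          push Not at hc
          exact h (by rw [hW, mem_filter]; exact ⟨hx, hc⟩)
        have h3 : (G'.degree x : ℝ) ≤ D := by exact_mod_cast h2.le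
        rw [hRd x hx]
        linarith
    calc ∑ x ∈ U, (G'.degree x : ℝ) ≤ ∑ x ∈ U, ((Real.sqrt ((1 + ε) * X * R.degree x) + η * n + 1) +
          (if x ∈ W then (n : ℝ) else 0)) := sum_le_sum hterm
      _ = ∑ x ∈ U, (Real.sqrt ((1 + ε) * X * R.degree x) + η * n + 1) + #W * n := by
          rw [sum_add_distrib, ← sum_filter, sum_const, nsmul_eq_mul]
          have : U.filter (fun x => x ∈ W) = W := by
            ext x
            rw [mem_filter]
            exact ⟨fun h => h.2, fun h => ⟨(hWm x h).1, h⟩⟩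
          rw [this]
      _ ≤ _ := by gcongr

/-- The main inequality. -/
theorem edges_le2 {n : ℕ} (hn : 1 ≤ n) (G : SimpleGraph (Fin n)) [DecidableRel G.Adj] (e : ℝ)
    (he : 0 < e) (he1 : e ≤ 1) (ε η B₁ : ℝ) (X : ℕ) (hη : 0 < η) (hε : 0 < ε) (hB₁ : 0 ≤ B₁)
    (H : ∀ (S W : Finset (Fin n)) (N : Fin n → Finset (Fin n)) (D : ℕ), (∀ x ∈ W, N x ⊆ S) →
      (∀ x ∈ W, #(N x) = D) → (∀ x ∈ W, ∀ v ∈ N x, G.Adj x v) →
      (∀ x ∈ W, ∀ y ∈ W, G.Adj x y → #(N x ∩ N y) ≤ X) → η * n ≤ D →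
      (1 + ε) * X * #S ≤ (D : ℝ) ^ 2 → (#W : ℝ) ≤ B₁)
    (hX : ∀ x y, G.Adj x y → ∀ s : Finset (Fin n), (∀ z ∈ s, G.Adj x z ∧ G.Adj y z) → #s ≤ X)
    (hcard : ⌈4 / e⌉₊ ≤ n)
    (htri : (#{p : Fin n × Fin n × Fin n | G.Adj p.1 p.2.1 ∧ G.Adj p.1 p.2.2 ∧ G.Adj p.2.1 p.2.2} : ℝ) <
      (1 - e / 4) * (e / 8) ^ 3 *
        (Fintype.card (Fin n) / (2 * (bound (e / 8) ⌈4 / e⌉₊ : ℕ) : ℝ)) ^ 3) :
    (#G.edgeFinset : ℝ) ≤ Real.sqrt ((1 + ε) * X * n ^ 3 / 8) +
      (e + η / 2) * (n : ℝ) ^ 2 + n / 2 + (bound (e / 8) ⌈4 / e⌉₊ : ℕ) * B₁ * (n : ℝ) / 2 := by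
  classical
  have : Nonempty (Fin n) := ⟨⟨0, hn⟩⟩
  have hcV : Fintype.card (Fin n) = n := Fintype.card_fin n
  have hn0 : (0 : ℝ) < n := by exact_mod_cast hn
  set B : ℕ := bound (e / 8) ⌈4 / e⌉₊ with hB
  have hcard' : ⌈4 / e⌉₊ ≤ Fintype.card (Fin n) := by rw [hcV]; exact hcard
  obtain ⟨P, hP₁, hP₂, hP₃, hP₄⟩ := szemeredi_regularity G (by positivity : 0 < e / 8) hcard'
  have hl : 4 / e ≤ #P.parts := (Nat.le_ceil (4 / e)).trans (Nat.cast_le.2 hP₂)
  have hk := SimpleGraph.regularityReduced_edges_card_aux he hP₁ hP₄ hl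
  set G' := G.regularityReduced P (e / 8) (e / 4) with hG'
  have hfree := blow_cliqueFree G P e he1 hP₁ hP₃ htri he
  set R := blow G P e with hR
  have hG'R : G' ≤ R := reduced_le_blow G P e
  have hG'G : G' ≤ G := SimpleGraph.regularityReduced_le
  have hdegG' : ∑ x, (G'.degree x : ℝ) = 2 * #G'.edgeFinset := by
    exact_mod_cast G'.sum_degrees_eq_twice_card_edges
  have hdegR : ∑ x, (R.degree x : ℝ) = 2 * #R.edgeFinset := by
    exact_mod_cast R.sum_degrees_eq_twice_card_edges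
  have hmantel : (#R.edgeFinset : ℝ) ≤ (n : ℝ) ^ 2 / 4 := by
    have h1 := SimpleGraph.CliqueFree.card_edgeFinset_le (r := 2) hfree
    simp only [hcV] at h1
    have h2 : 4 * #R.edgeFinset ≤ n ^ 2 := by
      rcases Nat.mod_two_eq_zero_or_one n with h3 | h3
      · rw [h3] at h1
        have h4 : (n ^ 2 - 0 ^ 2) * (2 - 1) / (2 * 2) = n ^ 2 / 4 := by
          norm_num
        have h5 : Nat.choose 0 2 = 0 := rfl
        omega
      · rw [h3] at h1
        have h4 : (n ^ 2 - 1 ^ 2) * (2 - 1) / (2 * 2) = (n ^ 2 - 1) / 4 := by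
          norm_num
        have h5 : Nat.choose 1 2 = 0 := rfl
        omega
    have h3 : (4 : ℝ) * #R.edgeFinset ≤ (n : ℝ) ^ 2 := by exact_mod_cast h2
    linarith
  have hpart : ∀ U ∈ P.parts, ∑ x ∈ U, (G'.degree x : ℝ) ≤
      ∑ x ∈ U, (Real.sqrt ((1 + ε) * X * R.degree x) + η * n + 1) + B₁ * n := by
    intro U hU
    apply part_le G G' R ε η B₁ X hη hε hG'G hG'R H hX U
    intro x hx y hy z
    exact blow_adj_iff_of_mem G P e hU hx hy
  have hsqrt : ∑ x, Real.sqrt ((1 + ε) * X * R.degree x) ≤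
      Real.sqrt ((1 + ε) * X * n ^ 3 / 2) := by
    apply Real.le_sqrt_of_sq_le
    have h1 := sq_sum_le_card_mul_sum_sq (s := (univ : Finset (Fin n)))
      (f := fun x => Real.sqrt ((1 + ε) * X * R.degree x))
    rw [card_univ, hcV] at h1
    have h2 : ∑ x : Fin n, Real.sqrt ((1 + ε) * X * R.degree x) ^ 2
        = (1 + ε) * X * (2 * #R.edgeFinset) := by
      rw [← hdegR, mul_sum]
      apply sum_congr rfl
      intro x _
      rw [Real.sq_sqrt (by positivity)]
    rw [h2] at h1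
    refine h1.trans ?_
    have h3 : (n : ℝ) * ((1 + ε) * X * (2 * #R.edgeFinset)) ≤
        n * ((1 + ε) * X * (2 * ((n : ℝ) ^ 2 / 4))) := by gcongr
    refine h3.trans (le_of_eq ?_)
    ring
  have hsum : 2 * (#G'.edgeFinset : ℝ) ≤ Real.sqrt ((1 + ε) * X * n ^ 3 / 2) + η * (n : ℝ) ^ 2 + n
      + B * B₁ * n := by
    rw [← hdegG', sum_parts P]
    calc ∑ U ∈ P.parts, ∑ x ∈ U, (G'.degree x : ℝ)
        ≤ ∑ U ∈ P.parts, (∑ x ∈ U, (Real.sqrt ((1 + ε) * X * R.degree x) + η * n + 1) + B₁ * n) :=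
          sum_le_sum hpart
      _ = ∑ x, (Real.sqrt ((1 + ε) * X * R.degree x) + η * n + 1) + #P.parts * (B₁ * n) := by
          rw [sum_add_distrib, ← sum_parts P]
          simp
      _ = ∑ x, Real.sqrt ((1 + ε) * X * R.degree x) + η * (n : ℝ) ^ 2 + n + #P.parts * (B₁ * n) := by
          rw [sum_add_distrib, sum_add_distrib]
          simp
          ring
      _ ≤ Real.sqrt ((1 + ε) * X * n ^ 3 / 2) + η * (n : ℝ) ^ 2 + n + B * (B₁ * n) := by
          have h3 : (#P.parts : ℝ) ≤ B := by exact_mod_cast hP₃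
          gcongr
      _ = _ := by ring
  have hk' : (#G.edgeFinset : ℝ) - #G'.edgeFinset < e * (n : ℝ) ^ 2 := by
    have h1 : 2 * (#G.edgeFinset - #G'.edgeFinset : ℝ) < 2 * e * (n : ℝ) ^ 2 := by
      have h2 := hk
      rw [hcV] at h2
      exact_mod_cast h2
    linarith
  have hs2 : Real.sqrt ((1 + ε) * X * n ^ 3 / 2) = 2 * Real.sqrt ((1 + ε) * X * n ^ 3 / 8) := by
    have h4 : (1 + ε) * X * (n : ℝ) ^ 3 / 2 = 2 ^ 2 * ((1 + ε) * X * n ^ 3 / 8) := by ring
    rw [h4, Real.sqrt_mul (by norm_num), Real.sqrt_sq (by norm_num)]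
  rw [hs2] at hsum
  linarith

end Pool.Agent.H50.RT2
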