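import Pool.Agent.H50.RT2.Reg2

/-!
# The square-root bound
-/

set_option maxHeartbeats 1000000

open Finset SzemerediRegularity Filter Topology

namespace Pool.Agent.H50.RT2

open Pool.Agent.H54.RT

lemma tri_lt (e : ℝ) (he0 : 0 < e) (he1 : e ≤ 1) : ∀ᶠ n : ℕ in atTop,
    ∀ (G : SimpleGraph (Fin n)) [DecidableRel G.Adj],
    G.CliqueFree 5 → ∀ a : ℕ, (∀ s : Finset (Fin n), G.IsIndepSet (s : Set (Fin n)) → #s ≤ a) →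
    (a : ℝ) ≤ (n : ℝ) ^ (7 / 10 : ℝ) →
    (#{p : Fin n × Fin n × Fin n | G.Adj p.1 p.2.1 ∧ G.Adj p.1 p.2.2 ∧ G.Adj p.2.1 p.2.2} : ℝ) <
      (1 - e / 4) * (e / 8) ^ 3 *
        (Fintype.card (Fin n) / (2 * (bound (e / 8) ⌈4 / e⌉₊ : ℕ) : ℝ)) ^ 3 := by
  set B : ℕ := bound (e / 8) ⌈4 / e⌉₊ with hB
  have hBpos : 0 < B := bound_pos _ _
  have hB0 : (0 : ℝ) < B := by exact_mod_cast hBpos
  set κ : ℝ := (1 - e / 4) * (e / 8) ^ 3 / (2 * B) ^ 3 with hκ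
  have hκ0 : 0 < κ := by
    have : 0 < 1 - e / 4 := by linarith
    positivity
  have t1 : Tendsto (fun n : ℕ => 2 * (n : ℝ) ^ (-(3 / 100) : ℝ)) atTop (𝓝 (2 * 0)) := by
    apply Tendsto.const_mul
    exact (tendsto_rpow_neg_atTop (by norm_num)).comp tendsto_natCast_atTop_atTop
  rw [mul_zero] at t1
  filter_upwards [t1.eventually (gt_mem_nhds hκ0), eventually_ge_atTop 1] with n h1 hn1 G _ hG a ha ha'
  have hn1' : (1 : ℝ) ≤ n := by exact_mod_cast hn1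
  have hn0 : (0 : ℝ) < n := by linarith
  have hcardV : Fintype.card (Fin n) = n := Fintype.card_fin n
  rw [tri_eq_sum]
  push_cast
  calc ∑ x, (adjPairs G (G.neighborFinset x) : ℝ)
      ≤ ∑ x : Fin n, 2 * (n : ℝ) ^ (197 / 100 : ℝ) := by
        apply sum_le_sum
        intro x _
        have := adjPairs_nbr_le' G hG a ha (by rw [hcardV]; exact hn1)
          (by rw [hcardV]; exact ha') x
        rwa [hcardV] at this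
    _ = (2 * (n : ℝ) ^ (-(3 / 100) : ℝ)) * (n : ℝ) ^ 3 := by
        rw [sum_const, card_univ, Fintype.card_fin, nsmul_eq_mul]
        have : (n : ℝ) * (n : ℝ) ^ (197 / 100 : ℝ) = (n : ℝ) ^ (-(3 / 100) : ℝ) * (n : ℝ) ^ 3 := by
          rw [← Real.rpow_natCast (n : ℝ) 3, ← Real.rpow_add hn0]
          nth_rewrite 1 [← Real.rpow_one (n : ℝ)]
          rw [← Real.rpow_add hn0]
          norm_num
        linarith
    _ < κ * (n : ℝ) ^ 3 := by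
        apply mul_lt_mul_of_pos_right h1
        positivity
    _ = _ := by
        rw [hκ, hcardV]
        field_simp

/-- **Square-root bound.** -/
theorem root_core (ε₀ : ℝ) (hε₀ : 0 < ε₀) : ∃ δ : ℝ, 0 < δ ∧ ∀ᶠ n : ℕ in atTop,
    ∀ G : SimpleGraph (Fin n), G.CliqueFree 5 → ∀ a : ℕ,
    (∀ s : Finset (Fin n), G.IsIndepSet (s : Set (Fin n)) → #s ≤ a) →
    (a : ℝ) ≤ (n : ℝ) ^ (1 / 2 + δ) → ∀ X : ℕ, (X : ℝ) ≤ n →
    (∀ x y, G.Adj x y → ∀ s : Finset (Fin n), (∀ z ∈ s, G.Adj x z ∧ G.Adj y z) → #s ≤ X) →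
    (G.edgeSet.ncard : ℝ) ≤ Real.sqrt (X * (n : ℝ) ^ 3 / 8) + ε₀ * (n : ℝ) ^ 2 := by
  classical
  obtain ⟨e, he0, he1, he2⟩ : ∃ e : ℝ, 0 < e ∧ e ≤ 1 ∧ e ≤ ε₀ / 8 :=
    ⟨min (ε₀ / 8) 1, by positivity, min_le_right _ _, min_le_left _ _⟩
  obtain ⟨η, hη0, hη1, hη2⟩ : ∃ η : ℝ, 0 < η ∧ η ≤ 1 / 2 ∧ η ≤ ε₀ / 8 :=
    ⟨min (ε₀ / 8) (1 / 2), by positivity, min_le_right _ _, min_le_left _ _⟩
  obtain ⟨ε, hε0, hε1, hε2⟩ : ∃ ε : ℝ, 0 < ε ∧ ε ≤ 1 ∧ ε ≤ (ε₀ / 4) ^ 2 :=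
    ⟨min ((ε₀ / 4) ^ 2) 1, by positivity, min_le_right _ _, min_le_left _ _⟩
  obtain ⟨δ, hδ0, hδ1, hML⟩ := main_lemma ε η hε0 hε1 hη0 hη1
  refine ⟨δ, hδ0, ?_⟩
  set B : ℕ := bound (e / 8) ⌈4 / e⌉₊ with hB
  have hBpos : 0 < B := bound_pos _ _
  have hB0 : (0 : ℝ) < B := by exact_mod_cast hBpos
  filter_upwards [hML, tri_lt e he0 he1, ev_rpow δ hδ0 (4 * B / ε₀),
    (tendsto_natCast_atTop_atTop (R := ℝ)).eventually_ge_atTop (4 / ε₀),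
    eventually_ge_atTop (max 1 ⌈4 / e⌉₊)] with n h1 h2 h3 h4 h5 G hG a ha haR X hXn hX
  have hn1 : 1 ≤ n := le_trans (le_max_left _ _) h5
  have hn2 : ⌈4 / e⌉₊ ≤ n := le_trans (le_max_right _ _) h5
  have hn1' : (1 : ℝ) ≤ n := by exact_mod_cast hn1
  have hn0 : (0 : ℝ) < n := by linarith
  have htri := h2 G hG a ha (haR.trans (Real.rpow_le_rpow_of_exponent_le hn1' (by linarith)))
  have hmain := edges_le2 hn1 G e he0 he1 ε η ((n : ℝ) ^ (1 - δ)) X hη0 hε0 (by positivity)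
    (fun S W N D c1 c2 c3 c4 c5 c6 => (h1 G hG a ha haR S W N D X c1 c2 c3 c4 c5 c6).le)
    hX hn2 htri
  have hedge : G.edgeSet.ncard = #G.edgeFinset := by
    rw [Set.ncard_eq_toFinset_card']
    rfl
  rw [hedge]
  have hs : Real.sqrt ((1 + ε) * X * n ^ 3 / 8) ≤
      Real.sqrt (X * (n : ℝ) ^ 3 / 8) + ε₀ / 4 * (n : ℝ) ^ 2 := by
    have h6 : 0 ≤ (X : ℝ) * (n : ℝ) ^ 3 / 8 := by positivity
    have h7 := Real.sq_sqrt h6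
    have h8 : 0 ≤ Real.sqrt (X * (n : ℝ) ^ 3 / 8) := Real.sqrt_nonneg _
    apply Real.sqrt_le_iff.2
    refine ⟨by positivity, ?_⟩
    have h9 : ε * ((X : ℝ) * (n : ℝ) ^ 3 / 8) ≤ (ε₀ / 4 * (n : ℝ) ^ 2) ^ 2 := by
      calc ε * ((X : ℝ) * (n : ℝ) ^ 3 / 8) ≤ (ε₀ / 4) ^ 2 * ((n : ℝ) * (n : ℝ) ^ 3 / 8) := by gcongr
        _ ≤ (ε₀ / 4 * (n : ℝ) ^ 2) ^ 2 := by
          have : (ε₀ / 4 * (n : ℝ) ^ 2) ^ 2 = (ε₀ / 4) ^ 2 * ((n : ℝ) * (n : ℝ) ^ 3) := by ring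
          rw [this]
          have h10 : 0 ≤ (n : ℝ) * (n : ℝ) ^ 3 := by positivity
          gcongr
          linarith
    have h11 : 0 ≤ 2 * Real.sqrt (X * (n : ℝ) ^ 3 / 8) * (ε₀ / 4 * (n : ℝ) ^ 2) := by positivity
    nlinarith
  have hn2' : (n : ℝ) / 2 ≤ ε₀ / 8 * (n : ℝ) ^ 2 := by
    rw [div_le_iff₀ hε₀] at h4
    nlinarith
  have hBn : (B : ℝ) * (n : ℝ) ^ (1 - δ) * n / 2 ≤ ε₀ / 8 * (n : ℝ) ^ 2 := by
    rw [div_le_iff₀ hε₀] at h3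
    have h6 : (n : ℝ) ^ δ * (n : ℝ) ^ (1 - δ) = n := by
      rw [← Real.rpow_add hn0]
      simp
    have h7 : 0 < (n : ℝ) ^ (1 - δ) := by positivity
    have h8 : 4 * B * (n : ℝ) ^ (1 - δ) ≤ ε₀ * n := by
      calc 4 * B * (n : ℝ) ^ (1 - δ) ≤ (n : ℝ) ^ δ * ε₀ * (n : ℝ) ^ (1 - δ) := by gcongr
        _ = ε₀ * ((n : ℝ) ^ δ * (n : ℝ) ^ (1 - δ)) := by ring
        _ = ε₀ * n := by rw [h6]
    nlinarith
  have h12 : (e + η / 2) * (n : ℝ) ^ 2 ≤ (ε₀ / 8 + ε₀ / 16) * (n : ℝ) ^ 2 :=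
    mul_le_mul_of_nonneg_right (by linarith) (by positivity)
  have h13 : 0 ≤ ε₀ * (n : ℝ) ^ 2 := by positivity
  nlinarith

end Pool.Agent.H50.RT2
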